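import Mathlib
import Pool.Agent.Arnold.Ode

/-!
# Area bound for planar Hamiltonians without fast periodic orbits: preliminaries
-/

open Set Filter Metric MeasureTheory
open scoped NNReal ENNReal Topology

namespace Pool.Agent.HZAnn

/-- The planar Hamiltonian vector field `s' = ∂h/∂r`, `r' = -∂h/∂s`. -/
noncomputable def X2 (h : ℝ × ℝ → ℝ) (p : ℝ × ℝ) : ℝ × ℝ :=
  (fderiv ℝ h p (0, 1), -fderiv ℝ h p (1, 0))

/-- A function on the plane which is periodic in the first variable and constant outside a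
compact part of the strip `a < r < b`. -/
structure Ham (l a b m : ℝ) (h : ℝ × ℝ → ℝ) : Prop where
  hl : 0 < l
  smooth : ContDiff ℝ 2 h
  per : ∀ p, h (p + (l, 0)) = h p
  out : ∃ a' b', a < a' ∧ a' < b' ∧ b' < b ∧ ∀ p : ℝ × ℝ, (p.2 ≤ a' ∨ b' ≤ p.2) → h p = m

lemma det_eq (A : ℝ × ℝ →L[ℝ] ℝ × ℝ) :
    A.det = (A (1, 0)).1 * (A (0, 1)).2 - (A (0, 1)).1 * (A (1, 0)).2 := by
  have h1 : A.det = LinearMap.det (A : ℝ × ℝ →ₗ[ℝ] ℝ × ℝ) := rfl
  rw [h1, ← LinearMap.det_toMatrix (Module.Basis.finTwoProd ℝ), Matrix.det_fin_two]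
  simp [LinearMap.toMatrix_apply]

lemma per_int {l : ℝ} {g : ℝ × ℝ → ℝ} (hg : ∀ p, g (p + (l, 0)) = g p) (k : ℤ) (p : ℝ × ℝ) :
    g (p + ((k : ℝ) * l, 0)) = g p := by
  have h1 : ∀ n : ℕ, ∀ p, g (p + ((n : ℝ) * l, 0)) = g p := by
    intro n
    induction n with
    | zero =>
      intro p
      have e : p + (((0 : ℕ) : ℝ) * l, 0) = p := by ext <;> simp
      rw [e]
    | succ n ih =>
      intro p
      have : p + (((n + 1 : ℕ) : ℝ) * l, 0) = (p + ((n : ℝ) * l, 0)) + (l, 0) := by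
        ext
        · simp; ring
        · simp
      rw [this, hg, ih]
  obtain ⟨n, rfl | rfl⟩ := k.eq_nat_or_neg
  · simpa using h1 n p
  · have := h1 n (p + (((-(n : ℤ) : ℤ) : ℝ) * l, 0))
    rw [← this]
    congr 1
    ext
    · simp
    · simp

/-- A continuous function which is periodic in `s` and vanishes for `r` outside `[a', b']` is
bounded. -/
lemma bounded_of_per {l a' b' : ℝ} (hl : 0 < l) {g : ℝ × ℝ → ℝ} (hc : Continuous g)
    (hper : ∀ p, g (p + (l, 0)) = g p) (hout : ∀ p : ℝ × ℝ, (p.2 < a' ∨ b' < p.2) → g p = 0) :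
    ∃ C : ℝ, 0 ≤ C ∧ ∀ p, |g p| ≤ C := by
  have hK : IsCompact (Icc (0 : ℝ) l ×ˢ Icc a' b') := isCompact_Icc.prod isCompact_Icc
  obtain ⟨C, hC⟩ := hK.exists_bound_of_continuousOn (f := g) hc.continuousOn
  refine ⟨max C 0, le_max_right _ _, fun p => ?_⟩
  by_cases hp : p.2 < a' ∨ b' < p.2
  · rw [hout p hp]; simp
  · push Not at hp
    obtain ⟨k, hk, -⟩ := existsUnique_sub_zsmul_mem_Ico hl p.1 0
    simp only [zero_add, zsmul_eq_mul] at hk
    have h1 : g p = g (p.1 - k * l, p.2) := by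
      have := per_int hper k (p.1 - k * l, p.2)
      rw [← this]
      congr 1
      ext <;> simp
    rw [h1]
    have h2 := hC (p.1 - k * l, p.2) ⟨⟨hk.1, hk.2.le⟩, hp.1, hp.2⟩
    rw [Real.norm_eq_abs] at h2
    exact h2.trans (le_max_left _ _)

lemma fderiv_per {F : Type*} [NormedAddCommGroup F] [NormedSpace ℝ F] {l : ℝ}
    {g : ℝ × ℝ → F} (hg : ∀ p, g (p + (l, 0)) = g p) (p : ℝ × ℝ) :
    fderiv ℝ g (p + (l, 0)) = fderiv ℝ g p := by
  have h1 : (fun p => g (p + (l, 0))) = g := funext hg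
  have h2 := fderiv_comp_add_right (𝕜 := ℝ) (f := g) (x := p) (l, 0)
  rw [h1] at h2
  exact h2.symm

lemma fderiv_out {F : Type*} [NormedAddCommGroup F] [NormedSpace ℝ F] {a' b' : ℝ} {m : F}
    {g : ℝ × ℝ → F} (hout : ∀ p : ℝ × ℝ, (p.2 < a' ∨ b' < p.2) → g p = m) (p : ℝ × ℝ)
    (hp : p.2 < a' ∨ b' < p.2) : fderiv ℝ g p = 0 := by
  have h1 : g =ᶠ[𝓝 p] fun _ => m := by
    have ho : IsOpen {q : ℝ × ℝ | q.2 < a' ∨ b' < q.2} :=
      (isOpen_lt continuous_snd continuous_const).union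
        (isOpen_lt continuous_const continuous_snd)
    filter_upwards [ho.mem_nhds hp] with q hq
    exact hout q hq
  rw [h1.fderiv_eq]
  simp

/-- evaluation of a linear form, rotated by a quarter turn -/
noncomputable def rot : (ℝ × ℝ →L[ℝ] ℝ) →L[ℝ] ℝ × ℝ :=
  (ContinuousLinearMap.apply ℝ ℝ ((0 : ℝ), (1 : ℝ))).prod
    (-(ContinuousLinearMap.apply ℝ ℝ ((1 : ℝ), (0 : ℝ))))

lemma X2_eq (h : ℝ × ℝ → ℝ) : X2 h = fun p => rot (fderiv ℝ h p) := by
  funext p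
  simp [X2, rot]

variable {l a b m : ℝ} {h : ℝ × ℝ → ℝ}

lemma Ham.X2_contDiff (H : Ham l a b m h) : ContDiff ℝ 1 (X2 h) := by
  rw [X2_eq]
  exact rot.contDiff.comp (H.smooth.fderiv_right (m := 1) (by norm_num))

lemma Ham.X2_per (H : Ham l a b m h) (p : ℝ × ℝ) : X2 h (p + (l, 0)) = X2 h p := by
  simp only [X2, fderiv_per H.per p]

lemma Ham.X2_lipschitz (H : Ham l a b m h) : ∃ K : ℝ≥0, LipschitzWith K (X2 h) := by
  obtain ⟨a', b', -, -, -, hout⟩ := H.out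
  have hc : Continuous fun p => ‖fderiv ℝ (X2 h) p‖ :=
    (H.X2_contDiff.continuous_fderiv (by norm_num)).norm
  have hX0 : ∀ p : ℝ × ℝ, (p.2 < a' ∨ b' < p.2) → X2 h p = 0 := by
    intro p hp
    have : fderiv ℝ h p = 0 := fderiv_out (m := m)
      (fun q hq => hout q (hq.imp le_of_lt le_of_lt)) p hp
    simp [X2, this]
  obtain ⟨C, hC0, hC⟩ := bounded_of_per (a' := a') (b' := b') H.hl hc
    (fun p => by rw [fderiv_per H.X2_per]) (fun p hp => by
      rw [fderiv_out hX0 p hp]; simp)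
  refine ⟨⟨C, hC0⟩, ?_⟩
  refine lipschitzWith_of_nnnorm_fderiv_le (𝕜 := ℝ) (H.X2_contDiff.differentiable (by norm_num))
    fun p => ?_
  have := hC p
  rw [abs_of_nonneg (norm_nonneg _)] at this
  exact this

lemma Ham.X2_bounded (H : Ham l a b m h) : ∃ L : ℝ≥0, ∀ p, ‖X2 h p‖ ≤ L := by
  obtain ⟨a', b', -, -, -, hout⟩ := H.out
  have hc : Continuous fun p => ‖X2 h p‖ := H.X2_contDiff.continuous.norm
  have hX0 : ∀ p : ℝ × ℝ, (p.2 < a' ∨ b' < p.2) → X2 h p = 0 := by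
    intro p hp
    have : fderiv ℝ h p = 0 := fderiv_out (m := m)
      (fun q hq => hout q (hq.imp le_of_lt le_of_lt)) p hp
    simp [X2, this]
  obtain ⟨C, hC0, hC⟩ := bounded_of_per (a' := a') (b' := b') H.hl hc
    (fun p => by rw [H.X2_per]) (fun p hp => by rw [hX0 p hp]; simp)
  refine ⟨⟨C, hC0⟩, fun p => ?_⟩
  have := hC p
  rw [abs_of_nonneg (norm_nonneg _)] at this
  exact this

/-- Existence of global orbits. -/
lemma Ham.exists_orbit (H : Ham l a b m h) (p : ℝ × ℝ) :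
    ∃ x : ℝ → ℝ × ℝ, x 0 = p ∧ ∀ t, HasDerivAt x (X2 h (x t)) t := by
  obtain ⟨K, hK⟩ := H.X2_lipschitz
  obtain ⟨L, hL⟩ := H.X2_bounded
  exact Pool.Agent.Arnold.exists_global_of_lipschitz (X2 h) K L hK hL p

/-- Uniqueness of orbits. -/
lemma Ham.orbit_unique (H : Ham l a b m h) {x y : ℝ → ℝ × ℝ}
    (hx : ∀ t, HasDerivAt x (X2 h (x t)) t) (hy : ∀ t, HasDerivAt y (X2 h (y t)) t) {t₀ : ℝ}
    (h0 : x t₀ = y t₀) : x = y := by
  obtain ⟨K, hK⟩ := H.X2_lipschitz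
  exact ODE_solution_unique_univ (v := fun _ => X2 h) (s := fun _ => univ) (K := K)
    (t₀ := t₀) (fun t => hK.lipschitzOnWith) (fun t => ⟨hx t, mem_univ _⟩)
    (fun t => ⟨hy t, mem_univ _⟩) h0

end Pool.Agent.HZAnn
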