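import Mathlib
import Pool.Agent.HZAnn.Plane

/-!
# A thin strip around an orbit without fast returns
-/

open Set Filter Metric MeasureTheory
open scoped NNReal ENNReal Topology

namespace Pool.Agent.HZAnn

lemma fold_measure {l : ℝ} (hl : 0 < l) {S A : Set (ℝ × ℝ)} (hS : MeasurableSet S)
    (hinj : ∀ p ∈ S, ∀ q ∈ S, ∀ k : ℤ, p = q + ((k : ℝ) * l, 0) → k = 0)
    (hSA : S ⊆ A) (hA : ∀ p ∈ A, ∀ k : ℤ, p + ((k : ℝ) * l, 0) ∈ A) :
    volume S ≤ volume (A ∩ (Ico 0 l ×ˢ univ)) := by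
  set Sk : ℤ → Set (ℝ × ℝ) := fun k => S ∩ {p | ⌊p.1 / l⌋ = k} with hSk
  set Tk : ℤ → Set (ℝ × ℝ) := fun k => (fun p => p + ((k : ℝ) * l, 0)) ⁻¹' Sk k with hTk
  have hmS : ∀ k, MeasurableSet (Sk k) := by
    intro k
    apply hS.inter
    have h1 : Measurable fun p : ℝ × ℝ => ⌊p.1 / l⌋ :=
      (measurable_fst.div_const l).floor
    exact h1 (measurableSet_singleton k)
  have hmT : ∀ k, MeasurableSet (Tk k) := fun k =>
    (measurable_id.add_const _) (hmS k)
  have hvol : ∀ k, volume (Tk k) = volume (Sk k) := fun k =>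
    measure_preimage_add_right volume _ (Sk k)
  have hU : S = ⋃ k, Sk k := by
    ext p
    simp [hSk]
  have hdS : Pairwise (Function.onFun Disjoint Sk) := by
    intro i j hij
    rw [Function.onFun, Set.disjoint_left]
    rintro p ⟨-, hp⟩ ⟨-, hq⟩
    exact hij (hp.symm.trans hq)
  have hdT : Pairwise (Function.onFun Disjoint Tk) := by
    intro i j hij
    rw [Function.onFun, Set.disjoint_left]
    rintro p ⟨hp, -⟩ ⟨hq, -⟩
    have := hinj _ hp _ hq (i - j) (by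
      ext
      · simp; ring
      · simp)
    exact hij (sub_eq_zero.1 this)
  calc volume S = ∑' k, volume (Sk k) := by
        conv_lhs => rw [hU]
        exact measure_iUnion hdS hmS
    _ = ∑' k, volume (Tk k) := by simp_rw [hvol]
    _ = volume (⋃ k, Tk k) := (measure_iUnion hdT hmT).symm
    _ ≤ volume (A ∩ (Ico 0 l ×ˢ univ)) := by
        apply measure_mono
        rintro p hp
        obtain ⟨k, hk⟩ := mem_iUnion.1 hp
        obtain ⟨h1, h2⟩ := hk
        refine ⟨?_, ?_, mem_univ _⟩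
        · have h3 := hA _ (hSA h1) (-k)
          have h4 : p + ((k : ℝ) * l, 0) + (((-k : ℤ) : ℝ) * l, 0) = p := by
            ext <;> simp
          rwa [h4] at h3
        · have h5 : ⌊(p.1 + k * l) / l⌋ = k := h2
          rw [add_div, mul_div_assoc, div_self hl.ne', mul_one, Int.floor_add_intCast] at h5
          have h6 : ⌊p.1 / l⌋ = 0 := by omega
          rw [Int.floor_eq_zero_iff] at h6
          obtain ⟨h7, h8⟩ := h6
          refine ⟨?_, ?_⟩
          · have := mul_nonneg h7 hl.le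
            rwa [div_mul_cancel₀ _ hl.ne'] at this
          · rwa [div_lt_one hl] at h8

lemma fderiv_expand (h : ℝ × ℝ → ℝ) (p v : ℝ × ℝ) :
    fderiv ℝ h p v = v.1 * fderiv ℝ h p (1, 0) + v.2 * fderiv ℝ h p (0, 1) := by
  have e : v = v.1 • ((1 : ℝ), (0 : ℝ)) + v.2 • ((0 : ℝ), (1 : ℝ)) := by
    ext <;> simp
  conv_lhs => rw [e]
  rw [map_add, map_smul, map_smul, smul_eq_mul, smul_eq_mul]

/-- No nonconstant orbit is closed up to the period `l` in time at most `1`. -/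
def Slow (l : ℝ) (h : ℝ × ℝ → ℝ) : Prop :=
  ¬ ∃ (x : ℝ → ℝ × ℝ) (T : ℝ) (k : ℤ), 0 < T ∧ T ≤ 1 ∧
    (∀ t, HasDerivAt x (X2 h (x t)) t) ∧ (∃ t, x t ≠ x 0) ∧ x T = x 0 + ((k : ℝ) * l, 0)

variable {l a b m : ℝ} {h : ℝ × ℝ → ℝ}

lemma conserved (hh : Differentiable ℝ h) {x : ℝ → ℝ × ℝ}
    (hx : ∀ t, HasDerivAt x (X2 h (x t)) t) (t : ℝ) : h (x t) = h (x 0) := by
  have hd : ∀ t, HasDerivAt (fun t => h (x t)) 0 t := by
    intro t
    have h1 := (hh (x t)).hasFDerivAt.comp_hasDerivAt t (hx t)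
    have h2 : fderiv ℝ h (x t) (X2 h (x t)) = 0 := by
      rw [fderiv_expand]; simp only [X2]; ring
    rwa [h2] at h1
  exact is_const_of_deriv_eq_zero (fun t => (hd t).differentiableAt) (fun t => (hd t).deriv) t 0

lemma Ham.X2_ne (H : Ham l a b m h) {x : ℝ → ℝ × ℝ}
    (hx : ∀ t, HasDerivAt x (X2 h (x t)) t) (h0 : X2 h (x 0) ≠ 0) (t : ℝ) : X2 h (x t) ≠ 0 := by
  intro ht
  have hy : ∀ s : ℝ, HasDerivAt (fun _ : ℝ => x t) (X2 h ((fun _ : ℝ => x t) s)) s := by
    intro s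
    simp only [ht]
    exact hasDerivAt_const s (x t)
  have := H.orbit_unique hx hy (t₀ := t) rfl
  have h1 : x 0 = x t := congrFun this 0
  exact h0 (h1 ▸ ht)

lemma Ham.no_return (H : Ham l a b m h) (hs : Slow l h) {x : ℝ → ℝ × ℝ}
    (hx : ∀ t, HasDerivAt x (X2 h (x t)) t) (h0 : X2 h (x 0) ≠ 0) {s t : ℝ} (hst : s < t)
    (ht : t - s ≤ 1) (k : ℤ) : x t ≠ x s + ((k : ℝ) * l, 0) := by
  intro he
  apply hs
  refine ⟨fun τ => x (τ + s), t - s, k, by linarith, ht, fun τ => ?_, ?_, ?_⟩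
  · exact (hx (τ + s)).comp_add_const τ s
  · by_contra hcon
    push Not at hcon
    have h1 : HasDerivAt (fun τ => x (τ + s)) (X2 h (x (0 + s))) 0 :=
      (hx (0 + s)).comp_add_const 0 s
    have h2 : (fun τ => x (τ + s)) = fun _ => x (0 + s) := funext hcon
    rw [h2] at h1
    have h3 := h1.unique (hasDerivAt_const 0 (x (0 + s)))
    exact H.X2_ne hx h0 _ h3
  · simp only [sub_add_cancel, zero_add]
    exact he

end Pool.Agent.HZAnn
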