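import Mathlib
import Pool.Agent.HZAnn.Strip

/-!
# A thin strip around an orbit without fast returns: the area estimate
-/

open Set Filter Metric MeasureTheory
open scoped NNReal ENNReal Topology

namespace Pool.Agent.HZAnn

variable {l a b m : ℝ} {h : ℝ × ℝ → ℝ}

/-- the normalised gradient at a point, expressed by the Hamiltonian field -/
noncomputable def nrm (v : ℝ × ℝ) : ℝ × ℝ := (v.1 ^ 2 + v.2 ^ 2)⁻¹ • (-v.2, v.1)

lemma sq_ne {v : ℝ × ℝ} (hv : v ≠ 0) : v.1 ^ 2 + v.2 ^ 2 ≠ 0 := by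
  intro h0
  have h1 : v.1 = 0 := by nlinarith [sq_nonneg v.1, sq_nonneg v.2]
  have h2 : v.2 = 0 := by nlinarith [sq_nonneg v.1, sq_nonneg v.2]
  exact hv (Prod.ext h1 h2)

lemma fderiv_nrm (p : ℝ × ℝ) (hp : X2 h p ≠ 0) : fderiv ℝ h p (nrm (X2 h p)) = 1 := by
  rw [fderiv_expand]
  have h1 : fderiv ℝ h p (1, 0) = -(X2 h p).2 := by simp [X2]
  have h2 : fderiv ℝ h p (0, 1) = (X2 h p).1 := by simp [X2]
  rw [h1, h2]
  have := sq_ne hp
  simp only [nrm, Prod.smul_fst, Prod.smul_snd, smul_eq_mul]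
  field_simp
  ring

/-- the strip map -/
noncomputable def strip (h : ℝ × ℝ → ℝ) (x : ℝ → ℝ × ℝ) (z : ℝ × ℝ) : ℝ × ℝ :=
  x z.1 + z.2 • nrm (X2 h (x z.1))

lemma Ham.orbit_contDiff (H : Ham l a b m h) {x : ℝ → ℝ × ℝ}
    (hx : ∀ t, HasDerivAt x (X2 h (x t)) t) : ContDiff ℝ 1 x := by
  rw [contDiff_one_iff_deriv]
  refine ⟨fun t => (hx t).differentiableAt, ?_⟩
  have h1 : deriv x = fun t => X2 h (x t) := funext fun t => (hx t).deriv
  rw [h1]
  exact H.X2_contDiff.continuous.comp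
    (continuous_iff_continuousAt.2 fun t => (hx t).continuousAt)

lemma Ham.nrm_contDiff (H : Ham l a b m h) {x : ℝ → ℝ × ℝ}
    (hx : ∀ t, HasDerivAt x (X2 h (x t)) t) (h0 : X2 h (x 0) ≠ 0) :
    ContDiff ℝ 1 fun t => nrm (X2 h (x t)) := by
  have h1 : ContDiff ℝ 1 fun t => X2 h (x t) := H.X2_contDiff.comp (H.orbit_contDiff hx)
  have h2 : ContDiff ℝ 1 fun t => (X2 h (x t)).1 := contDiff_fst.comp h1
  have h3 : ContDiff ℝ 1 fun t => (X2 h (x t)).2 := contDiff_snd.comp h1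
  have h4 : ContDiff ℝ 1 fun t => ((X2 h (x t)).1 ^ 2 + (X2 h (x t)).2 ^ 2)⁻¹ :=
    ((h2.pow 2).add (h3.pow 2)).inv fun t => sq_ne (H.X2_ne hx h0 t)
  exact h4.smul (h3.neg.prodMk h2)

lemma Ham.strip_contDiff (H : Ham l a b m h) {x : ℝ → ℝ × ℝ}
    (hx : ∀ t, HasDerivAt x (X2 h (x t)) t) (h0 : X2 h (x 0) ≠ 0) :
    ContDiff ℝ 1 (strip h x) := by
  have h1 := (H.orbit_contDiff hx).comp (contDiff_fst (𝕜 := ℝ) (E := ℝ) (F := ℝ))
  have h2 := (H.nrm_contDiff hx h0).comp (contDiff_fst (𝕜 := ℝ) (E := ℝ) (F := ℝ))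
  exact h1.add (contDiff_snd.smul h2)

lemma Ham.strip_fderiv_left (H : Ham l a b m h) {x : ℝ → ℝ × ℝ}
    (hx : ∀ t, HasDerivAt x (X2 h (x t)) t) (h0 : X2 h (x 0) ≠ 0) (τ : ℝ) :
    fderiv ℝ (strip h x) (τ, 0) (1, 0) = X2 h (x τ) := by
  have hd : HasFDerivAt (strip h x) (fderiv ℝ (strip h x) (τ, 0)) (τ, 0) :=
    ((H.strip_contDiff hx h0).differentiable (by norm_num) _).hasFDerivAt
  have hc : HasDerivAt (fun t : ℝ => ((t, 0) : ℝ × ℝ)) (1, 0) τ :=
    (hasDerivAt_id τ).prodMk (hasDerivAt_const τ 0)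
  have h1 := hd.comp_hasDerivAt τ hc
  have h2 : (strip h x ∘ fun t : ℝ => ((t, 0) : ℝ × ℝ)) = x := by
    funext t; simp [strip]
  rw [h2] at h1
  exact h1.unique (hx τ)

lemma Ham.strip_fderiv_right (H : Ham l a b m h) {x : ℝ → ℝ × ℝ}
    (hx : ∀ t, HasDerivAt x (X2 h (x t)) t) (h0 : X2 h (x 0) ≠ 0) (τ σ : ℝ) :
    fderiv ℝ (strip h x) (τ, σ) (0, 1) = nrm (X2 h (x τ)) := by
  have hd : HasFDerivAt (strip h x) (fderiv ℝ (strip h x) (τ, σ)) (τ, σ) :=
    ((H.strip_contDiff hx h0).differentiable (by norm_num) _).hasFDerivAt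
  have hc : HasDerivAt (fun t : ℝ => ((τ, t) : ℝ × ℝ)) (0, 1) σ :=
    (hasDerivAt_const σ τ).prodMk (hasDerivAt_id σ)
  have h1 := hd.comp_hasDerivAt σ hc
  have h2 : HasDerivAt (fun t : ℝ => x τ + t • nrm (X2 h (x τ))) (nrm (X2 h (x τ))) σ := by
    have := ((hasDerivAt_id σ).smul_const (nrm (X2 h (x τ)))).const_add (x τ)
    simpa using this
  exact h1.unique h2

lemma Ham.strip_det (H : Ham l a b m h) {x : ℝ → ℝ × ℝ}
    (hx : ∀ t, HasDerivAt x (X2 h (x t)) t) (h0 : X2 h (x 0) ≠ 0) (τ : ℝ) :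
    (fderiv ℝ (strip h x) (τ, 0)).det = 1 := by
  rw [det_eq, H.strip_fderiv_left hx h0, H.strip_fderiv_right hx h0]
  have := sq_ne (H.X2_ne hx h0 τ)
  simp only [nrm, Prod.smul_fst, Prod.smul_snd, smul_eq_mul]
  field_simp
  ring

/-- The projection to the cylinder. -/
def cyl (l : ℝ) (p : ℝ × ℝ) : AddCircle l × ℝ := ((p.1 : AddCircle l), p.2)

lemma cyl_eq {p q : ℝ × ℝ} (he : cyl l p = cyl l q) : ∃ k : ℤ, p = q + ((k : ℝ) * l, 0) := by
  obtain ⟨h1, h2⟩ := Prod.ext_iff.1 he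
  simp only [cyl] at h1 h2
  have h3 : ((p.1 - q.1 : ℝ) : AddCircle l) = 0 := by
    rw [AddCircle.coe_sub, h1, sub_self]
  rw [AddCircle.coe_eq_zero_iff] at h3
  obtain ⟨k, hk⟩ := h3
  refine ⟨k, Prod.ext ?_ ?_⟩
  · simp only [zsmul_eq_mul] at hk
    simp only [Prod.fst_add]
    linarith
  · simp [h2]

lemma cyl_add (p : ℝ × ℝ) (k : ℤ) : cyl l (p + ((k : ℝ) * l, 0)) = cyl l p := by
  refine Prod.ext ?_ ?_
  · simp only [cyl, Prod.fst_add]
    rw [← sub_eq_zero, ← AddCircle.coe_sub, AddCircle.coe_eq_zero_iff]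
    exact ⟨k, by simp⟩
  · simp [cyl]

lemma cyl_continuous : Continuous (cyl l) :=
  ((AddCircle.continuous_mk' l).comp continuous_fst).prodMk continuous_snd

/-- Near the orbit segment the strip map is injective on the cylinder. -/
lemma Ham.strip_injOn (H : Ham l a b m h) (hs : Slow l h) {x : ℝ → ℝ × ℝ}
    (hx : ∀ t, HasDerivAt x (X2 h (x t)) t) (h0 : X2 h (x 0) ≠ 0) {c : ℝ} (hc : c ≤ 1) :
    ∃ t ∈ 𝓝ˢ (Icc (0 : ℝ) c ×ˢ ({0} : Set ℝ)), InjOn (fun z => cyl l (strip h x z)) t := by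
  have : Fact (0 < l) := ⟨H.hl⟩
  have hcont : Continuous (strip h x) := (H.strip_contDiff hx h0).continuous
  apply Set.InjOn.exists_mem_nhdsSet
  · rintro ⟨s, σ⟩ ⟨hs1, hσ⟩ ⟨t, σ'⟩ ⟨ht1, hσ'⟩ he
    simp only [mem_singleton_iff] at hσ hσ'
    subst hσ; subst hσ'
    obtain ⟨k, hk⟩ := cyl_eq he
    simp only [strip, zero_smul, add_zero] at hk
    have hs2 : s ∈ Icc (0 : ℝ) c := hs1
    have ht2 : t ∈ Icc (0 : ℝ) c := ht1
    rcases lt_trichotomy s t with hlt | heq | hgt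
    · exfalso
      refine H.no_return hs hx h0 hlt (by linarith [hs2.1, ht2.2]) (-k) ?_
      rw [hk]
      ext
      · simp
      · simp
    · rw [heq]
    · exfalso
      exact H.no_return hs hx h0 hgt (by linarith [ht2.1, hs2.2]) k hk
  · exact isCompact_Icc.prod isCompact_singleton
  · intro z _
    exact (cyl_continuous.comp hcont).continuousAt
  · rintro ⟨τ, σ⟩ ⟨-, hσ⟩
    simp only [mem_singleton_iff] at hσ
    subst hσ
    -- local injectivity of the strip map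
    have hst : HasStrictFDerivAt (strip h x) (fderiv ℝ (strip h x) (τ, 0)) (τ, 0) :=
      (H.strip_contDiff hx h0).contDiffAt.hasStrictFDerivAt (by norm_num)
    have hdet : (fderiv ℝ (strip h x) (τ, 0)).det ≠ 0 := by
      rw [H.strip_det hx h0]; norm_num
    set e := ContinuousLinearMap.toContinuousLinearEquivOfDetNeZero
      (fderiv ℝ (strip h x) (τ, 0)) hdet with he
    have hst' : HasStrictFDerivAt (strip h x) (e : ℝ × ℝ →L[ℝ] ℝ × ℝ) (τ, 0) := by
      have : (e : ℝ × ℝ →L[ℝ] ℝ × ℝ) = fderiv ℝ (strip h x) (τ, 0) := by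
        rw [he]; exact ContinuousLinearMap.coe_toContinuousLinearEquivOfDetNeZero _ _
      rw [this]; exact hst
    obtain ⟨U, hU, hUi⟩ : ∃ U ∈ 𝓝 ((τ, 0) : ℝ × ℝ), InjOn (strip h x) U := by
      refine ⟨(hst'.toOpenPartialHomeomorph (strip h x)).source,
        (hst'.toOpenPartialHomeomorph (strip h x)).open_source.mem_nhds
          hst'.mem_toOpenPartialHomeomorph_source, ?_⟩
      exact (hst'.toOpenPartialHomeomorph (strip h x)).injOn
    have hV : {z : ℝ × ℝ | |(strip h x z).1 - (strip h x (τ, 0)).1| < l / 2} ∈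
        𝓝 ((τ, 0) : ℝ × ℝ) := by
      have ho : IsOpen {z : ℝ × ℝ | |(strip h x z).1 - (strip h x (τ, 0)).1| < l / 2} :=
        isOpen_lt ((continuous_fst.comp hcont).sub continuous_const).abs continuous_const
      apply ho.mem_nhds
      change |(strip h x (τ, 0)).1 - (strip h x (τ, 0)).1| < l / 2
      rw [sub_self, abs_zero]
      linarith [H.hl]
    refine ⟨_, inter_mem hU hV, ?_⟩
    rintro y ⟨hyU, hyV⟩ z ⟨hzU, hzV⟩ heq
    obtain ⟨k, hk⟩ := cyl_eq heq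
    have hk0 : k = 0 := by
      have h1 : (strip h x y).1 = (strip h x z).1 + k * l := by
        rw [hk]; rfl
      have hy2 : |(strip h x y).1 - (strip h x (τ, 0)).1| < l / 2 := hyV
      have hz2 : |(strip h x z).1 - (strip h x (τ, 0)).1| < l / 2 := hzV
      rw [abs_lt] at hy2 hz2
      have h2 : |(k : ℝ)| < 1 := by
        rw [abs_lt]
        constructor
        · by_contra hcon
          push Not at hcon
          nlinarith [H.hl]
        · by_contra hcon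
          push Not at hcon
          nlinarith [H.hl]
      have h3 : |k| < 1 := by exact_mod_cast h2
      exact Int.abs_lt_one_iff.1 h3
    rw [hk0] at hk
    apply hUi hyU hzU
    rw [hk]
    ext <;> simp

end Pool.Agent.HZAnn
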