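import Mathlib
import Pool.Agent.HZAnn.Strip2

/-!
# The area bound for planar Hamiltonians without fast periodic orbits
-/

open Set Filter Metric MeasureTheory
open scoped NNReal ENNReal Topology

namespace Pool.Agent.HZAnn

variable {l a b m : ℝ} {h : ℝ × ℝ → ℝ}

lemma exists_box {c : ℝ} {U : Set (ℝ × ℝ)} (hU : IsOpen U)
    (hK : Icc (0 : ℝ) c ×ˢ ({0} : Set ℝ) ⊆ U) :
    ∃ d : ℝ, 0 < d ∧ Icc (0 : ℝ) c ×ˢ Icc (-d) d ⊆ U := by
  obtain ⟨u, v, -, hv, hu1, hv1, huv⟩ :=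
    generalized_tube_lemma isCompact_Icc isCompact_singleton hU hK
  have h1 : v ∈ 𝓝 (0 : ℝ) := hv.mem_nhds (hv1 rfl)
  obtain ⟨d, hd, hd1⟩ := Metric.mem_nhds_iff.1 h1
  refine ⟨d / 2, by positivity, fun z hz => huv ⟨hu1 hz.1, hd1 ?_⟩⟩
  rw [mem_ball, Real.dist_eq, sub_zero, abs_lt]
  constructor
  · linarith [hz.2.1]
  · linarith [hz.2.2]

/-- The region `|h - h p| ≤ δ` of the cylinder has area at least `(1 - ε) 2 δ`. -/
theorem Ham.strip_area (H : Ham l a b m h) (hs : Slow l h) (p : ℝ × ℝ)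
    (hp : X2 h p ≠ 0) {c : ℝ} (hc0 : 0 < c) (hc1 : c < 1) :
    ∀ᶠ δ in 𝓝[>] (0 : ℝ), ENNReal.ofReal (c ^ 3 * (2 * δ)) ≤
      volume ({q | |h q - h p| ≤ δ} ∩ (Ico 0 l ×ˢ univ)) := by
  obtain ⟨x, hx0, hx⟩ := H.exists_orbit p
  have h0 : X2 h (x 0) ≠ 0 := by rw [hx0]; exact hp
  have hG := H.strip_contDiff hx h0
  have hhd : Differentiable ℝ h := H.smooth.differentiable (by norm_num)
  have hhG : ContDiff ℝ 1 (fun z => h (strip h x z)) :=
    (H.smooth.of_le (by norm_num)).comp hG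
  -- the three open conditions
  set U1 : Set (ℝ × ℝ) := {z | |fderiv ℝ (fun z => h (strip h x z)) z (0, 1)| < c⁻¹} with hU1
  set U2 : Set (ℝ × ℝ) := {z | c < |(fderiv ℝ (strip h x) z).det|} with hU2
  have hU1o : IsOpen U1 :=
    isOpen_lt ((hhG.continuous_fderiv (by norm_num)).clm_apply continuous_const).abs
      continuous_const
  have hU2o : IsOpen U2 :=
    isOpen_lt continuous_const
      (ContinuousLinearMap.continuous_det.comp (hG.continuous_fderiv (by norm_num))).abs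
  obtain ⟨t, ht, hti⟩ := H.strip_injOn hs hx h0 (c := c) hc1.le
  obtain ⟨V, hVo, hKV, hVt⟩ := mem_nhdsSet_iff_exists.1 ht
  have hchain : ∀ z : ℝ × ℝ, fderiv ℝ (fun z => h (strip h x z)) z (0, 1) =
      fderiv ℝ h (strip h x z) (fderiv ℝ (strip h x) z (0, 1)) := by
    intro z
    have h1 : HasFDerivAt (fun z => h (strip h x z))
        ((fderiv ℝ h (strip h x z)).comp (fderiv ℝ (strip h x) z)) z :=
      (hhd _).hasFDerivAt.comp z ((hG.differentiable (by norm_num)) z).hasFDerivAt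
    rw [h1.fderiv]; rfl
  have hKU : Icc (0 : ℝ) c ×ˢ ({0} : Set ℝ) ⊆ U1 ∩ U2 ∩ V := by
    rintro ⟨τ, σ⟩ ⟨hτ, hσ⟩
    simp only [mem_singleton_iff] at hσ
    subst hσ
    refine ⟨⟨?_, ?_⟩, hKV ⟨hτ, rfl⟩⟩
    · change |fderiv ℝ (fun z => h (strip h x z)) (τ, 0) (0, 1)| < c⁻¹
      rw [hchain, H.strip_fderiv_right hx h0]
      have h1 : strip h x (τ, 0) = x τ := by simp [strip]
      rw [h1, fderiv_nrm _ (H.X2_ne hx h0 τ), abs_one]
      exact (one_lt_inv₀ hc0).2 hc1
    · change c < |(fderiv ℝ (strip h x) (τ, 0)).det|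
      rw [H.strip_det hx h0, abs_one]; exact hc1
  obtain ⟨d, hd, hbox⟩ := exists_box ((hU1o.inter hU2o).inter hVo) hKU
  have hev : ∀ᶠ δ in 𝓝[>] (0 : ℝ), δ < d := by
    filter_upwards [Ioo_mem_nhdsGT hd] with δ hδ
    exact hδ.2
  filter_upwards [hev, self_mem_nhdsWithin] with δ hδd hδ0
  have hδ : 0 < δ := hδ0
  have hcd : c * δ ≤ d := by nlinarith
  set B : Set (ℝ × ℝ) := Icc (0 : ℝ) c ×ˢ Icc (-(c * δ)) (c * δ) with hB
  have hBsub : B ⊆ U1 ∩ U2 ∩ V := fun z hz =>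
    hbox ⟨hz.1, by linarith [hz.2.1], by linarith [hz.2.2]⟩
  have hBm : MeasurableSet B := measurableSet_Icc.prod measurableSet_Icc
  have hinjc : InjOn (fun z => cyl l (strip h x z)) B := hti.mono fun z hz => hVt (hBsub hz).2
  have hinj : InjOn (strip h x) B := fun y hy z hz he => hinjc hy hz (by simp only [he])
  -- volume of the image
  have hvol : ENNReal.ofReal (c ^ 3 * (2 * δ)) ≤ volume (strip h x '' B) := by
    rw [← lintegral_abs_det_fderiv_eq_addHaar_image volume hBm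
      (f' := fun z => fderiv ℝ (strip h x) z) (fun z _ =>
        ((hG.differentiable (by norm_num)) z).hasFDerivAt.hasFDerivWithinAt) hinj]
    calc ENNReal.ofReal (c ^ 3 * (2 * δ)) = ∫⁻ _ in B, ENNReal.ofReal c := by
          rw [setLIntegral_const, hB, Measure.volume_eq_prod, Measure.prod_prod,
            Real.volume_Icc, Real.volume_Icc, ← ENNReal.ofReal_mul (by linarith),
            ← ENNReal.ofReal_mul hc0.le]
          congr 1
          ring
      _ ≤ _ := by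
          apply setLIntegral_mono' hBm
          intro z hz
          exact ENNReal.ofReal_le_ofReal (le_of_lt (hBsub hz).1.2)
  refine hvol.trans ?_
  have hcompact : IsCompact B := isCompact_Icc.prod isCompact_Icc
  have hmeas : MeasurableSet (strip h x '' B) :=
    (hcompact.image hG.continuous).isClosed.measurableSet
  refine fold_measure H.hl hmeas ?_ ?_ ?_
  · rintro _ ⟨y, hy, rfl⟩ _ ⟨z, hz, rfl⟩ k hk
    have h1 : cyl l (strip h x y) = cyl l (strip h x z) := by rw [hk, cyl_add]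
    have h2 : y = z := hinjc hy hz h1
    rw [h2] at hk
    have h3 : (k : ℝ) * l = 0 := by
      have := congrArg Prod.fst hk
      simp only [Prod.fst_add] at this
      linarith
    rcases mul_eq_zero.1 h3 with h4 | h4
    · exact_mod_cast h4
    · exact absurd h4 H.hl.ne'
  · rintro _ ⟨z, hz, rfl⟩
    change |h (strip h x z) - h p| ≤ δ
    have h1 : h p = h (strip h x (z.1, 0)) := by
      have : strip h x (z.1, 0) = x z.1 := by simp [strip]
      rw [this, conserved hhd hx, hx0]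
    rw [h1]
    have hder : ∀ σ ∈ Icc (-(c * δ)) (c * δ), HasDerivWithinAt
        (fun σ => h (strip h x (z.1, σ)))
        (fderiv ℝ (fun z => h (strip h x z)) (z.1, σ) (0, 1)) (Icc (-(c * δ)) (c * δ)) σ := by
      intro σ _
      have hcu : HasDerivAt (fun t : ℝ => ((z.1, t) : ℝ × ℝ)) (0, 1) σ :=
        (hasDerivAt_const σ z.1).prodMk (hasDerivAt_id σ)
      exact (((hhG.differentiable (by norm_num)) (z.1, σ)).hasFDerivAt.comp_hasDerivAt σ
        hcu).hasDerivWithinAt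
    have hbd : ∀ σ ∈ Icc (-(c * δ)) (c * δ),
        ‖fderiv ℝ (fun z => h (strip h x z)) (z.1, σ) (0, 1)‖ ≤ c⁻¹ := by
      intro σ hσ
      rw [Real.norm_eq_abs]
      exact le_of_lt (hBsub (show ((z.1, σ) : ℝ × ℝ) ∈ B from ⟨hz.1, hσ⟩)).1.1
    have hcδ : 0 ≤ c * δ := by positivity
    have h2 := (convex_Icc (-(c * δ)) (c * δ)).norm_image_sub_le_of_norm_hasDerivWithin_le
      hder hbd (show (0 : ℝ) ∈ Icc (-(c * δ)) (c * δ) from ⟨by linarith, hcδ⟩) hz.2
    rw [Real.norm_eq_abs, Real.norm_eq_abs, sub_zero] at h2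
    have h3 : |z.2| ≤ c * δ := abs_le.2 hz.2
    calc |h (strip h x z) - h (strip h x (z.1, 0))| ≤ c⁻¹ * |z.2| := h2
      _ ≤ c⁻¹ * (c * δ) := by gcongr
      _ = δ := by field_simp
  · intro q hq k
    change |h (q + ((k : ℝ) * l, 0)) - h p| ≤ δ
    rw [per_int H.per]
    exact hq

end Pool.Agent.HZAnn
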