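import Mathlib
import Pool.Agent.HZAnn.Area

/-!
# The area bound for planar Hamiltonians without fast periodic orbits
-/

open Set Filter Metric MeasureTheory
open scoped NNReal ENNReal Topology

namespace Pool.Agent.HZAnn

variable {l a b m : ℝ} {h : ℝ × ℝ → ℝ}

/-- Critical values of a function of one variable have measure zero. -/
lemma volume_critical {u u' : ℝ → ℝ} (hu : ∀ t, HasDerivAt u (u' t) t) :
    volume (u '' {t | u' t = 0}) = 0 := by
  refine addHaar_image_eq_zero_of_det_fderivWithin_eq_zero volume
    (f' := fun t => ContinuousLinearMap.toSpanSingleton ℝ (u' t))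
    (fun t _ => (hu t).hasFDerivAt.hasFDerivWithinAt) ?_
  intro t ht
  have h0 : u' t = 0 := ht
  simp only [h0]
  have : (ContinuousLinearMap.toSpanSingleton ℝ (0 : ℝ)) = 0 := by
    ext; simp
  rw [this]
  change LinearMap.det (0 : ℝ →ₗ[ℝ] ℝ) = 0
  simp

/-- A planar Hamiltonian, periodic of period `l` in the first variable and equal to `m` outside a
compact part of the strip `a < r < b`, which has no nonconstant orbit closed up to the period in
time at most one, deviates from `m` by at most the area `l (b - a)`. -/
theorem Ham.area_bound (H : Ham l a b m h) (hs : Slow l h) (p : ℝ × ℝ) :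
    |h p - m| ≤ l * (b - a) := by
  obtain ⟨a', b', haa, hab, hbb, hout⟩ := H.out
  have hhd : Differentiable ℝ h := H.smooth.differentiable (by norm_num)
  have hl := H.hl
  have hA : 0 < l * (b - a) := mul_pos hl (by linarith)
  set u : ℝ → ℝ := fun t => h (p.1, t) with hu
  have hu' : ∀ t, HasDerivAt u (fderiv ℝ h (p.1, t) (0, 1)) t := by
    intro t
    have hc : HasDerivAt (fun t : ℝ => ((p.1, t) : ℝ × ℝ)) (0, 1) t :=
      (hasDerivAt_const t p.1).prodMk (hasDerivAt_id t)
    exact (hhd (p.1, t)).hasFDerivAt.comp_hasDerivAt t hc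
  have hua : u a' = m := hout _ (Or.inl le_rfl)
  have hup : u p.2 = h p := rfl
  set Z : Set ℝ := u '' {t | fderiv ℝ h (p.1, t) (0, 1) = 0} with hZ
  have hZ0 : volume Z = 0 := volume_critical hu'
  set S : Set ℝ := uIoo m (h p) \ Z with hS
  have hvolS : volume S = ENNReal.ofReal |h p - m| := by
    rw [hS, measure_sdiff_null hZ0, uIoo, Real.volume_Ioo]
    congr 1
    exact max_sub_min_eq_abs' _ _ |>.trans (abs_sub_comm _ _)
  set D : Set (ℝ × ℝ) := Ico 0 l ×ˢ Ioo a b with hD
  have hvolD : volume D = ENNReal.ofReal (l * (b - a)) := by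
    rw [hD, Measure.volume_eq_prod, Measure.prod_prod, Real.volume_Ico, Real.volume_Ioo,
      ← ENNReal.ofReal_mul (by linarith)]
    congr 1; ring
  have hDm : MeasurableSet D := measurableSet_Ico.prod measurableSet_Ioo
  set ν : Measure ℝ := Measure.map h (volume.restrict D) with hν
  have hmeas : Measurable h := H.smooth.continuous.measurable
  have hνu : ν univ = ENNReal.ofReal (l * (b - a)) := by
    rw [hν, Measure.map_apply hmeas MeasurableSet.univ, preimage_univ,
      Measure.restrict_apply_univ, hvolD]
  have hfin : IsFiniteMeasure ν := ⟨by rw [hνu]; exact ENNReal.ofReal_lt_top⟩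
  have key : ∀ c : ℝ, 0 < c → c < 1 → c ^ 3 * |h p - m| ≤ l * (b - a) := by
    intro c hc0 hc1
    set ρ : Measure ℝ := (ENNReal.ofReal (c ^ 3)) • volume with hρ
    have h1 : ρ S ≤ ν S := by
      refine (Besicovitch.vitaliFamily (volume : Measure ℝ)).measure_le_of_frequently_le ν
        Measure.smul_absolutelyContinuous S ?_
      intro e he
      obtain ⟨t, ht, hte⟩ : ∃ t ∈ uIcc a' p.2, u t = e := by
        have hiv := intermediate_value_uIcc (f := u) (a := a') (b := p.2)
          (fun t _ => (hu' t).continuousAt.continuousWithinAt)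
        have : e ∈ uIcc (u a') (u p.2) := by
          rw [hua, hup]; exact uIoo_subset_uIcc_self he.1
        obtain ⟨t, ht, hte⟩ := hiv this
        exact ⟨t, ht, hte⟩
      have hX : X2 h (p.1, t) ≠ 0 := by
        intro h0
        apply he.2
        refine ⟨t, ?_, hte⟩
        exact congrArg Prod.fst h0
      have hem : e ≠ m := by
        rintro rfl
        exact left_notMem_uIoo he.1
      have hpos : 0 < |e - m| := abs_pos.2 (sub_ne_zero.2 hem)
      have hev := H.strip_area hs (p.1, t) hX hc0 hc1
      have hev2 : ∀ᶠ δ in 𝓝[>] (0 : ℝ), δ < |e - m| := by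
        filter_upwards [Ioo_mem_nhdsGT hpos] with δ hδ
        exact hδ.2
      have hev3 : ∀ᶠ δ in 𝓝[>] (0 : ℝ), ρ (closedBall e δ) ≤ ν (closedBall e δ) := by
        filter_upwards [hev, hev2, self_mem_nhdsWithin] with δ h1 h2 h3
        have hδ : (0 : ℝ) < δ := h3
        rw [hρ, Measure.smul_apply, Real.volume_closedBall, smul_eq_mul,
          ← ENNReal.ofReal_mul (by positivity)]
        refine h1.trans ?_
        rw [hν, Measure.map_apply hmeas measurableSet_closedBall,
          Measure.restrict_apply (hmeas measurableSet_closedBall)]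
        apply measure_mono
        rintro q ⟨hq1, hq2⟩
        have hq3 : |h q - e| ≤ δ := by
          have : |h q - h (p.1, t)| ≤ δ := hq1
          rwa [show h (p.1, t) = e from hte] at this
        refine ⟨?_, hq2.1, ?_⟩
        · rw [mem_preimage, mem_closedBall, Real.dist_eq]; exact hq3
        · by_contra hcon
          have hqm : h q = m := by
            apply hout
            by_contra hcon2
            push Not at hcon2
            exact hcon ⟨by linarith [hcon2.1], by linarith [hcon2.2]⟩
          rw [hqm, abs_sub_comm] at hq3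
          linarith
      exact (Besicovitch.tendsto_filterAt volume e).frequently hev3.frequently
    have h2 : ρ S ≤ ENNReal.ofReal (l * (b - a)) :=
      h1.trans ((measure_mono (subset_univ _)).trans hνu.le)
    rw [hρ, Measure.smul_apply, hvolS, smul_eq_mul, ← ENNReal.ofReal_mul (by positivity)] at h2
    exact (ENNReal.ofReal_le_ofReal_iff hA.le).1 h2
  have hlim : Tendsto (fun c : ℝ => c ^ 3 * |h p - m|) (𝓝[<] 1) (𝓝 (1 ^ 3 * |h p - m|)) :=
    ((continuous_pow 3).mul continuous_const).continuousAt.tendsto.mono_left nhdsWithin_le_nhds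
  have hfinal : (1 : ℝ) ^ 3 * |h p - m| ≤ l * (b - a) := by
    refine le_of_tendsto hlim ?_
    filter_upwards [Ioo_mem_nhdsLT (show (0 : ℝ) < 1 by norm_num)] with c hc
    exact key c hc.1 hc.2
  linarith

end Pool.Agent.HZAnn
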