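import Mathlib
import Pool.Agent.HZAnn.Bound

/-!
# Hamiltonians on the cotangent bundle of a hyperbolic surface, in the coordinates of the frozen
statement, and invariant symplectic annuli
-/

open Set Filter Metric MeasureTheory
open scoped NNReal ENNReal Topology ComplexConjugate

namespace Pool.Agent.HZAnn

/-- The group `SL(2, ℝ)`. -/
abbrev SL2 := Matrix.SpecialLinearGroup (Fin 2) ℝ

/-- The factor `c z + d`. -/
noncomputable def den (γ : SL2) (z : ℂ) : ℂ :=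
  ((γ : Matrix (Fin 2) (Fin 2) ℝ) 1 0 : ℂ) * z + ((γ : Matrix (Fin 2) (Fin 2) ℝ) 1 1 : ℂ)

/-- The Möbius action on the upper half plane. -/
noncomputable def mob (γ : SL2) (z : ℂ) : ℂ :=
  (((γ : Matrix (Fin 2) (Fin 2) ℝ) 0 0 : ℂ) * z + ((γ : Matrix (Fin 2) (Fin 2) ℝ) 0 1 : ℂ)) /
    (((γ : Matrix (Fin 2) (Fin 2) ℝ) 1 0 : ℂ) * z + ((γ : Matrix (Fin 2) (Fin 2) ℝ) 1 1 : ℂ))

/-- The action on the cotangent bundle `T*ℍ`: `(z, w)` stands for the covector `Re (w dz)` at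
`z`, that is `w = p_x - i p_y`. -/
noncomputable def act (γ : SL2) (u : ℂ × ℂ) : ℂ × ℂ :=
  ((((γ : Matrix (Fin 2) (Fin 2) ℝ) 0 0 : ℂ) * u.1 + ((γ : Matrix (Fin 2) (Fin 2) ℝ) 0 1 : ℂ)) /
    (((γ : Matrix (Fin 2) (Fin 2) ℝ) 1 0 : ℂ) * u.1 + ((γ : Matrix (Fin 2) (Fin 2) ℝ) 1 1 : ℂ)),
   u.2 * (((γ : Matrix (Fin 2) (Fin 2) ℝ) 1 0 : ℂ) * u.1 +
     ((γ : Matrix (Fin 2) (Fin 2) ℝ) 1 1 : ℂ)) ^ 2)

/-- The Hamiltonian vector field of `H` on `T*ℍ` in the coordinates `(z, w)`. -/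
noncomputable def XH (H : ℂ × ℂ → ℝ) (u : ℂ × ℂ) : ℂ × ℂ :=
  (((fderiv ℝ H u ((0 : ℂ), (1 : ℂ)) : ℝ) : ℂ) +
      Complex.I * ((fderiv ℝ H u ((0 : ℂ), -Complex.I) : ℝ) : ℂ),
    -((fderiv ℝ H u ((1 : ℂ), (0 : ℂ)) : ℝ) : ℂ) +
      Complex.I * ((fderiv ℝ H u (Complex.I, (0 : ℂ)) : ℝ) : ℂ))

/-- The hypotheses of the frozen statement on a pair `(H, m)`: `H` is a smooth `Γ`-invariant
function on `T*ℍ` with values in `[0, m]`, equal to `m` near and outside the boundary of the unit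
disk bundle, zero on a nonempty open set, and without nonconstant orbits closed modulo `Γ` in time
at most `1`. (So `m - H` is a slow Hamiltonian in the sense of Hofer and Zehnder.) -/
structure Admissible (Γ : Subgroup SL2) (H : ℂ × ℂ → ℝ) (m : ℝ) : Prop where
  smooth : ContDiffOn ℝ ((⊤ : ℕ∞) : WithTop ℕ∞) H {u : ℂ × ℂ | 0 < u.1.im}
  inv : ∀ γ ∈ Γ, ∀ u : ℂ × ℂ, 0 < u.1.im → H (act γ u) = H u
  bounds : ∀ u : ℂ × ℂ, 0 < u.1.im → 0 ≤ H u ∧ H u ≤ m
  outer : ∃ r : ℝ, r < 1 ∧ ∀ u : ℂ × ℂ, 0 < u.1.im → r ≤ u.1.im * ‖u.2‖ → H u = m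
  inner : ∃ U : Set (ℂ × ℂ), IsOpen U ∧ U.Nonempty ∧
    U ⊆ {u : ℂ × ℂ | 0 < u.1.im ∧ u.1.im * ‖u.2‖ < 1} ∧ ∀ u ∈ U, H u = 0
  slow : ¬ ∃ x : ℝ → ℂ × ℂ, ∃ T : ℝ, 0 < T ∧ T ≤ 1 ∧
    (∀ t : ℝ, 0 < (x t).1.im ∧ HasDerivAt x (XH H (x t)) t) ∧
    (∃ t : ℝ, x t ≠ x 0) ∧ ∃ γ ∈ Γ, x T = act γ (x 0)

/-- The canonical symplectic form `Re (dz ∧ dw)`. -/
noncomputable def om (u v : ℂ × ℂ) : ℝ := (u.1 * v.2 - u.2 * v.1).re

lemma om_XH (H : ℂ × ℂ → ℝ) (u v : ℂ × ℂ) : om (XH H u) v = fderiv ℝ H u v := by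
  have e : v = v.1.re • ((1 : ℂ), (0 : ℂ)) + v.1.im • (Complex.I, (0 : ℂ)) +
      v.2.re • ((0 : ℂ), (1 : ℂ)) + (-v.2.im) • ((0 : ℂ), -Complex.I) := by
    refine Prod.ext ?_ ?_ <;> apply Complex.ext <;> simp
  conv_rhs => rw [e]
  simp only [map_add, map_smul, smul_eq_mul]
  simp only [om, XH]
  simp only [Complex.sub_re, Complex.mul_re, Complex.add_re, Complex.add_im, Complex.neg_re,
    Complex.neg_im, Complex.ofReal_re, Complex.ofReal_im, Complex.I_re, Complex.I_im,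
    Complex.mul_im]
  ring

lemma om_add_left (u u' v : ℂ × ℂ) : om (u + u') v = om u v + om u' v := by
  simp only [om, Prod.fst_add, Prod.snd_add, Complex.sub_re, Complex.mul_re, Complex.add_re,
    Complex.add_im]
  ring

lemma om_smul_left (t : ℝ) (u v : ℂ × ℂ) : om (t • u) v = t * om u v := by
  simp only [om, Prod.smul_fst, Prod.smul_snd, Complex.sub_re, Complex.mul_re,
    Complex.real_smul, Complex.ofReal_re, Complex.ofReal_im, Complex.mul_im]
  ring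

lemma om_self (u : ℂ × ℂ) : om u u = 0 := by
  simp only [om, Complex.sub_re, Complex.mul_re]
  ring

lemma om_antisymm (u v : ℂ × ℂ) : om u v = -om v u := by
  simp only [om, Complex.sub_re, Complex.mul_re]
  ring

/-- A symplectic form is nondegenerate. -/
lemma om_nondeg {u : ℂ × ℂ} (h : ∀ v, om u v = 0) : u = 0 := by
  have h1 := h ((0 : ℂ), (1 : ℂ))
  have h2 := h ((0 : ℂ), Complex.I)
  have h3 := h ((1 : ℂ), (0 : ℂ))
  have h4 := h (Complex.I, (0 : ℂ))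
  simp [om] at h1 h2 h3 h4
  exact Prod.ext (Complex.ext h1 h2) (Complex.ext h3 h4)

lemma den_ne (γ : SL2) {z : ℂ} (hz : 0 < z.im) : den γ z ≠ 0 := by
  intro h0
  have hdet := γ.det_coe
  rw [Matrix.det_fin_two] at hdet
  have h1 := congrArg Complex.im h0
  have h2 := congrArg Complex.re h0
  simp only [den, Complex.add_im, Complex.mul_im, Complex.ofReal_re, Complex.ofReal_im,
    zero_mul, add_zero, Complex.zero_im, Complex.add_re, Complex.mul_re, sub_zero,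
    Complex.zero_re] at h1 h2
  rcases mul_eq_zero.1 h1 with h3 | h3
  · rw [h3] at h2 hdet
    simp only [zero_mul, zero_add] at h2
    rw [h2] at hdet
    simp at hdet
  · exact hz.ne' h3

lemma act_def (γ : SL2) (u : ℂ × ℂ) : act γ u = (mob γ u.1, u.2 * den γ u.1 ^ 2) := rfl

lemma det_c (γ : SL2) : ((γ : Matrix (Fin 2) (Fin 2) ℝ) 0 0 : ℂ) *
    ((γ : Matrix (Fin 2) (Fin 2) ℝ) 1 1 : ℂ) - ((γ : Matrix (Fin 2) (Fin 2) ℝ) 0 1 : ℂ) *
    ((γ : Matrix (Fin 2) (Fin 2) ℝ) 1 0 : ℂ) = 1 := by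
  have hdet := γ.det_coe
  rw [Matrix.det_fin_two] at hdet
  exact_mod_cast hdet

lemma mob_im (γ : SL2) {z : ℂ} (hz : 0 < z.im) :
    (mob γ z).im = z.im / Complex.normSq (den γ z) := by
  have hd := den_ne γ hz
  have h1 : mob γ z = (((γ : Matrix (Fin 2) (Fin 2) ℝ) 0 0 : ℂ) * z +
      ((γ : Matrix (Fin 2) (Fin 2) ℝ) 0 1 : ℂ)) / den γ z := rfl
  have hdet := γ.det_coe
  rw [Matrix.det_fin_two] at hdet
  rw [h1, Complex.div_im]
  have hn : Complex.normSq (den γ z) ≠ 0 := by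
    rw [ne_eq, Complex.normSq_eq_zero]; exact hd
  rw [← sub_div]
  congr 1
  simp only [den, Complex.add_im, Complex.mul_im, Complex.ofReal_re, Complex.ofReal_im,
    zero_mul, add_zero, Complex.add_re, Complex.mul_re, sub_zero]
  linear_combination z.im * hdet

lemma mob_im_pos (γ : SL2) {z : ℂ} (hz : 0 < z.im) : 0 < (mob γ z).im := by
  rw [mob_im γ hz]
  exact div_pos hz (Complex.normSq_pos.2 (den_ne γ hz))

lemma act_mul (γ γ' : SL2) {u : ℂ × ℂ} (hu : 0 < u.1.im) :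
    act (γ * γ') u = act γ (act γ' u) := by
  have hd' : den γ' u.1 ≠ 0 := den_ne γ' hu
  have hd : den γ (mob γ' u.1) ≠ 0 := den_ne γ (mob_im_pos γ' hu)
  have hcoc : den (γ * γ') u.1 = den γ (mob γ' u.1) * den γ' u.1 := by
    have h1 : mob γ' u.1 * den γ' u.1 = ((γ' : Matrix (Fin 2) (Fin 2) ℝ) 0 0 : ℂ) * u.1 +
        ((γ' : Matrix (Fin 2) (Fin 2) ℝ) 0 1 : ℂ) := div_mul_cancel₀ _ hd'
    have h2 : den γ (mob γ' u.1) * den γ' u.1 = ((γ : Matrix (Fin 2) (Fin 2) ℝ) 1 0 : ℂ) *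
        (mob γ' u.1 * den γ' u.1) + ((γ : Matrix (Fin 2) (Fin 2) ℝ) 1 1 : ℂ) * den γ' u.1 := by
      simp only [den]; ring
    rw [h2, h1]
    simp only [den, Matrix.SpecialLinearGroup.coe_mul, Matrix.mul_apply, Fin.sum_univ_two,
      Complex.ofReal_add, Complex.ofReal_mul]
    ring
  have hnum : ((((γ * γ' : SL2) : Matrix (Fin 2) (Fin 2) ℝ) 0 0 : ℂ) * u.1 +
      (((γ * γ' : SL2) : Matrix (Fin 2) (Fin 2) ℝ) 0 1 : ℂ)) =
      (((γ : Matrix (Fin 2) (Fin 2) ℝ) 0 0 : ℂ) * mob γ' u.1 +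
        ((γ : Matrix (Fin 2) (Fin 2) ℝ) 0 1 : ℂ)) * den γ' u.1 := by
    have h1 : mob γ' u.1 * den γ' u.1 = ((γ' : Matrix (Fin 2) (Fin 2) ℝ) 0 0 : ℂ) * u.1 +
        ((γ' : Matrix (Fin 2) (Fin 2) ℝ) 0 1 : ℂ) := div_mul_cancel₀ _ hd'
    rw [add_mul, mul_assoc, h1]
    simp only [den, Matrix.SpecialLinearGroup.coe_mul, Matrix.mul_apply, Fin.sum_univ_two,
      Complex.ofReal_add, Complex.ofReal_mul]
    ring
  rw [act_def, act_def, act_def]
  refine Prod.ext ?_ ?_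
  · change _ / den (γ * γ') u.1 = _ / den γ (mob γ' u.1)
    rw [hcoc, hnum, mul_div_mul_right _ _ hd']
  · change u.2 * den (γ * γ') u.1 ^ 2 = u.2 * den γ' u.1 ^ 2 * den γ (mob γ' u.1) ^ 2
    rw [hcoc]; ring

lemma act_one (u : ℂ × ℂ) : act 1 u = u := by
  simp [act]

lemma act_im_pos (γ : SL2) {u : ℂ × ℂ} (hu : 0 < u.1.im) : 0 < (act γ u).1.im :=
  mob_im_pos γ hu

/-- A symplectic annulus in the cotangent bundle of `N = Γ \ ℍ`, of symplectic area `l (b - a)`,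
to which the Hamiltonian vector field of `H` is tangent, and near whose ends `H = m`. -/
structure InvAnnulus (Γ : Subgroup SL2) (H : ℂ × ℂ → ℝ) (m l a b : ℝ) (F : ℝ × ℝ → ℂ × ℂ) :
    Prop where
  pos_l : 0 < l
  smooth : ContDiff ℝ ((⊤ : ℕ∞) : WithTop ℕ∞) F
  pos : ∀ p, 0 < (F p).1.im
  symp : ∀ p : ℝ × ℝ, a < p.2 → p.2 < b →
    om (fderiv ℝ F p (1, 0)) (fderiv ℝ F p (0, 1)) = 1
  tangent : ∀ p : ℝ × ℝ, a < p.2 → p.2 < b → ∃ v : ℝ × ℝ, fderiv ℝ F p v = XH H (F p)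
  closed : ∃ γ ∈ Γ, ∀ p, F (p + (l, 0)) = act γ (F p)
  proper : ∃ a' b', a < a' ∧ a' < b' ∧ b' < b ∧
    ∀ p : ℝ × ℝ, (p.2 ≤ a' ∨ b' ≤ p.2) → H (F p) = m

lemma closed_int {F : ℝ × ℝ → ℂ × ℂ} (hpos : ∀ p, 0 < (F p).1.im) {l : ℝ} {γ : SL2}
    (hF : ∀ p, F (p + (l, 0)) = act γ (F p)) (k : ℤ) (p : ℝ × ℝ) :
    F (p + ((k : ℝ) * l, 0)) = act (γ ^ k) (F p) := by
  have h1 : ∀ n : ℕ, ∀ p, F (p + ((n : ℝ) * l, 0)) = act (γ ^ n) (F p) := by
    intro n
    induction n with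
    | zero =>
      intro p
      have e : p + (((0 : ℕ) : ℝ) * l, 0) = p := by ext <;> simp
      rw [e, pow_zero, act_one]
    | succ n ih =>
      intro p
      have : p + (((n + 1 : ℕ) : ℝ) * l, 0) = (p + ((n : ℝ) * l, 0)) + (l, 0) := by
        ext
        · simp; ring
        · simp
      rw [this, hF, ih, pow_succ', act_mul _ _ (hpos p)]
  obtain ⟨n, rfl | rfl⟩ := k.eq_nat_or_neg
  · simpa using h1 n p
  · have h2 := h1 n (p + (((-(n : ℤ) : ℤ) : ℝ) * l, 0))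
    have e : p + (((-(n : ℤ) : ℤ) : ℝ) * l, 0) + ((n : ℝ) * l, 0) = p := by
      ext <;> simp
    rw [e] at h2
    rw [h2, ← act_mul _ _ (hpos _), zpow_neg, zpow_natCast, inv_mul_cancel, act_one]

lemma isOpen_uhp : IsOpen {u : ℂ × ℂ | 0 < u.1.im} :=
  isOpen_lt continuous_const (Complex.continuous_im.comp continuous_fst)

/-- **Area bound on invariant annuli.** -/
theorem InvAnnulus.bound {Γ : Subgroup SL2} {H : ℂ × ℂ → ℝ} {m l a b : ℝ}
    {F : ℝ × ℝ → ℂ × ℂ} (hA : Admissible Γ H m) (hF : InvAnnulus Γ H m l a b F) (p : ℝ × ℝ) :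
    m - H (F p) ≤ l * (b - a) := by
  obtain ⟨γ, hγ, hcl⟩ := hF.closed
  set h : ℝ × ℝ → ℝ := fun p => H (F p) with hh
  have hHd : ∀ p, DifferentiableAt ℝ H (F p) := fun p =>
    (hA.smooth.contDiffAt (isOpen_uhp.mem_nhds (hF.pos p))).differentiableAt (by simp)
  have hFd : Differentiable ℝ F := hF.smooth.differentiable (by simp)
  have hham : Ham l a b m h := by
    refine ⟨hF.pos_l, ?_, ?_, ?_⟩
    · have h2 : (2 : WithTop ℕ∞) ≤ ((⊤ : ℕ∞) : WithTop ℕ∞) :=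
        WithTop.coe_le_coe.2 (le_top : (2 : ℕ∞) ≤ ⊤)
      exact (hA.smooth.comp_contDiff hF.smooth hF.pos).of_le h2
    · intro p
      simp only [hh]
      rw [hcl, hA.inv γ hγ _ (hF.pos p)]
    · exact hF.proper
  have hchain : ∀ p v, fderiv ℝ h p v = fderiv ℝ H (F p) (fderiv ℝ F p v) := by
    intro p v
    have h1 : HasFDerivAt h ((fderiv ℝ H (F p)).comp (fderiv ℝ F p)) p :=
      (hHd p).hasFDerivAt.comp p (hFd p).hasFDerivAt
    rw [h1.fderiv]; rfl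
  -- tangency identifies the planar field with the restriction of the Hamiltonian field
  have hfield : ∀ p : ℝ × ℝ, a < p.2 → p.2 < b →
      fderiv ℝ F p (X2 h p) = XH H (F p) := by
    intro p hp1 hp2
    obtain ⟨v, hv⟩ := hF.tangent p hp1 hp2
    have hsy := hF.symp p hp1 hp2
    have hexp : XH H (F p) = v.1 • fderiv ℝ F p (1, 0) + v.2 • fderiv ℝ F p (0, 1) := by
      rw [← hv, ← map_smul, ← map_smul, ← map_add]
      congr 1
      ext <;> simp
    have h1 : fderiv ℝ h p (1, 0) = -v.2 := by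
      rw [hchain, ← om_XH, hexp, om_add_left, om_smul_left, om_smul_left, om_self,
        om_antisymm (fderiv ℝ F p (0, 1)), hsy]
      ring
    have h2 : fderiv ℝ h p (0, 1) = v.1 := by
      rw [hchain, ← om_XH, hexp, om_add_left, om_smul_left, om_smul_left, om_self, hsy]
      ring
    have h3 : X2 h p = v := by
      simp only [X2, h1, h2, neg_neg]
    rw [h3, hv]
  have hslow : Slow l h := by
    rintro ⟨x, T, k, hT0, hT1, hx, ⟨t₁, ht₁⟩, hxT⟩
    -- the orbit stays in the open strip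
    have hne : X2 h (x 0) ≠ 0 := by
      intro h0
      have hy : ∀ s : ℝ, HasDerivAt (fun _ : ℝ => x 0) (X2 h ((fun _ : ℝ => x 0) s)) s := by
        intro s
        simp only [h0]
        exact hasDerivAt_const s (x 0)
      have := hham.orbit_unique hx hy (t₀ := 0) rfl
      exact ht₁ (congrFun this t₁)
    have hlt : h (x 0) ≠ m := by
      intro hm
      apply hne
      have hmax : IsLocalMax h (x 0) := by
        refine Filter.Eventually.of_forall fun q => ?_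
        rw [hm]
        exact (hA.bounds _ (hF.pos q)).2
      have := hmax.fderiv_eq_zero
      simp [X2, this]
    obtain ⟨a', b', haa, -, hbb, hprop⟩ := hF.proper
    have hstrip : ∀ t, a < (x t).2 ∧ (x t).2 < b := by
      intro t
      have hc : h (x t) = h (x 0) :=
        conserved (hham.smooth.differentiable (by norm_num)) hx t
      by_contra hcon
      apply hlt
      rw [← hc]
      apply hprop
      by_contra hcon2
      push Not at hcon2
      exact hcon ⟨by linarith [hcon2.1], by linarith [hcon2.2]⟩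
    apply hA.slow
    refine ⟨fun t => F (x t), T, hT0, hT1, fun t => ⟨hF.pos _, ?_⟩, ?_, ?_⟩
    · have h1 := (hFd (x t)).hasFDerivAt.comp_hasDerivAt t (hx t)
      rw [hfield _ (hstrip t).1 (hstrip t).2] at h1
      exact h1
    · by_contra hcon
      push Not at hcon
      have h1 := (hFd (x 0)).hasFDerivAt.comp_hasDerivAt 0 (hx 0)
      have h2 : (F ∘ x) = fun _ => F (x 0) := funext hcon
      rw [h2] at h1
      have h3 : fderiv ℝ F (x 0) (X2 h (x 0)) = 0 := h1.unique (hasDerivAt_const 0 _)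
      rw [hfield _ (hstrip 0).1 (hstrip 0).2] at h3
      apply hne
      have h4 : ∀ v, fderiv ℝ h (x 0) v = 0 := by
        intro v
        rw [hchain, ← om_XH, h3]
        simp [om]
      simp [X2, h4]
    · refine ⟨γ ^ k, Γ.zpow_mem hγ k, ?_⟩
      change F (x T) = act (γ ^ k) (F (x 0))
      rw [hxT, closed_int hF.pos hcl]
  have := hham.area_bound hslow p
  rw [abs_sub_comm] at this
  exact (le_abs_self _).trans this

end Pool.Agent.HZAnn
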