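import Mathlib
import Pool.Agent.HZAnn.Cot

/-!
# Cotangent annuli of closed curves, and reflections
-/

open Set Filter Metric MeasureTheory
open scoped NNReal ENNReal Topology ComplexConjugate

namespace Pool.Agent.HZAnn

lemma affine_hasDerivAt (a b z : ℂ) : HasDerivAt (fun z : ℂ => a * z + b) a z := by
  have h := ((hasDerivAt_id z).const_mul a).add_const b
  rw [mul_one] at h
  exact h

lemma den_hasDerivAt (γ : SL2) (z : ℂ) :
    HasDerivAt (den γ) ((γ : Matrix (Fin 2) (Fin 2) ℝ) 1 0 : ℂ) z :=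
  affine_hasDerivAt _ _ z

lemma mob_hasDerivAt (γ : SL2) {z : ℂ} (hz : 0 < z.im) :
    HasDerivAt (mob γ) (1 / den γ z ^ 2) z := by
  have hd := den_ne γ hz
  have h := (affine_hasDerivAt ((γ : Matrix (Fin 2) (Fin 2) ℝ) 0 0 : ℂ)
    ((γ : Matrix (Fin 2) (Fin 2) ℝ) 0 1 : ℂ) z).div (den_hasDerivAt γ z) hd
  have e : (((γ : Matrix (Fin 2) (Fin 2) ℝ) 0 0 : ℂ) * den γ z -
      (((γ : Matrix (Fin 2) (Fin 2) ℝ) 0 0 : ℂ) * z + ((γ : Matrix (Fin 2) (Fin 2) ℝ) 0 1 : ℂ)) *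
        ((γ : Matrix (Fin 2) (Fin 2) ℝ) 1 0 : ℂ)) = 1 := by
    simp only [den]
    linear_combination det_c γ
  rw [e] at h
  exact h

/-- The cotangent annulus of a unit speed curve `c` in the hyperbolic plane: the point with
parameters `(s, r)` is the covector `r ⟨c'(s), ·⟩` at `c(s)`; its norm is `|r|`. -/
noncomputable def cot (c : ℝ → ℂ) (p : ℝ × ℝ) : ℂ × ℂ :=
  (c p.1, (p.2 : ℂ) * conj (deriv c p.1) / ((c p.1).im : ℂ) ^ 2)

lemma cot_contDiff {c : ℝ → ℂ} (hc : ContDiff ℝ ((⊤ : ℕ∞) : WithTop ℕ∞) c)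
    (hpos : ∀ s, 0 < (c s).im) : ContDiff ℝ ((⊤ : ℕ∞) : WithTop ℕ∞) (cot c) := by
  have h1 : ContDiff ℝ ((⊤ : ℕ∞) : WithTop ℕ∞) (deriv c) := (contDiff_infty_iff_deriv.1 hc).2
  have h2 : ContDiff ℝ ((⊤ : ℕ∞) : WithTop ℕ∞) fun p : ℝ × ℝ => c p.1 := hc.comp contDiff_fst
  have h3 : ContDiff ℝ ((⊤ : ℕ∞) : WithTop ℕ∞) fun p : ℝ × ℝ => conj (deriv c p.1) :=
    Complex.conjCLE.contDiff.comp (h1.comp contDiff_fst)
  have h4 : ContDiff ℝ ((⊤ : ℕ∞) : WithTop ℕ∞) fun p : ℝ × ℝ => (p.2 : ℂ) :=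
    Complex.ofRealCLM.contDiff.comp contDiff_snd
  have h5 : ContDiff ℝ ((⊤ : ℕ∞) : WithTop ℕ∞) fun p : ℝ × ℝ => ((c p.1).im : ℂ) ^ 2 :=
    (Complex.ofRealCLM.contDiff.comp (Complex.imCLM.contDiff.comp h2)).pow 2
  have h6 := (h4.mul h3).mul (h5.inv fun p : ℝ × ℝ =>
    pow_ne_zero 2 (Complex.ofReal_ne_zero.2 (hpos p.1).ne'))
  have h7 := h2.prodMk h6
  have e : cot c = fun p : ℝ × ℝ => (c p.1, (p.2 : ℂ) * conj (deriv c p.1) *
      (((c p.1).im : ℂ) ^ 2)⁻¹) := by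
    funext p
    simp only [cot, div_eq_mul_inv]
  rw [e]
  exact h7

lemma cot_fderiv_left {c : ℝ → ℂ} (hc : ContDiff ℝ ((⊤ : ℕ∞) : WithTop ℕ∞) c)
    (hpos : ∀ s, 0 < (c s).im) (p : ℝ × ℝ) : (fderiv ℝ (cot c) p (1, 0)).1 = deriv c p.1 := by
  have hd : HasFDerivAt (cot c) (fderiv ℝ (cot c) p) p :=
    ((cot_contDiff hc hpos).differentiable (by simp) _).hasFDerivAt
  have hcu : HasDerivAt (fun t : ℝ => ((t, p.2) : ℝ × ℝ)) (1, 0) p.1 :=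
    (hasDerivAt_id p.1).prodMk (hasDerivAt_const p.1 p.2)
  have h1 := hd.comp_hasDerivAt p.1 hcu
  have h2 : HasDerivAt (fun t : ℝ => c t) (fderiv ℝ (cot c) p (1, 0)).1 p.1 := by
    have h3 := (ContinuousLinearMap.fst ℝ ℂ ℂ).hasFDerivAt.comp_hasDerivAt p.1 h1
    exact h3
  exact (h2.unique ((hc.differentiable (by simp)) p.1).hasDerivAt)

lemma cot_fderiv_right {c : ℝ → ℂ} (hc : ContDiff ℝ ((⊤ : ℕ∞) : WithTop ℕ∞) c)
    (hpos : ∀ s, 0 < (c s).im) (p : ℝ × ℝ) : fderiv ℝ (cot c) p (0, 1) =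
      (0, conj (deriv c p.1) / ((c p.1).im : ℂ) ^ 2) := by
  have hd : HasFDerivAt (cot c) (fderiv ℝ (cot c) p) p :=
    ((cot_contDiff hc hpos).differentiable (by simp) _).hasFDerivAt
  have hcu : HasDerivAt (fun t : ℝ => ((p.1, t) : ℝ × ℝ)) (0, 1) p.2 :=
    (hasDerivAt_const p.2 p.1).prodMk (hasDerivAt_id p.2)
  have h1 := hd.comp_hasDerivAt p.2 hcu
  have h2 : HasDerivAt (fun t : ℝ => (t : ℂ)) 1 p.2 := Complex.ofRealCLM.hasDerivAt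
  have h3 : HasDerivAt (fun t : ℝ => (t : ℂ) * conj (deriv c p.1) / ((c p.1).im : ℂ) ^ 2)
      (conj (deriv c p.1) / ((c p.1).im : ℂ) ^ 2) p.2 := by
    have := (h2.mul_const (conj (deriv c p.1))).div_const (((c p.1).im : ℂ) ^ 2)
    simpa using this
  exact h1.unique ((hasDerivAt_const p.2 (c p.1)).prodMk h3)

lemma cot_symp {c : ℝ → ℂ} (hc : ContDiff ℝ ((⊤ : ℕ∞) : WithTop ℕ∞) c)
    (hpos : ∀ s, 0 < (c s).im) (hunit : ∀ s, ‖deriv c s‖ = (c s).im) (p : ℝ × ℝ) :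
    om (fderiv ℝ (cot c) p (1, 0)) (fderiv ℝ (cot c) p (0, 1)) = 1 := by
  rw [cot_fderiv_right hc hpos]
  simp only [om, cot_fderiv_left hc hpos, mul_zero, sub_zero]
  have h1 : (deriv c p.1 * (conj (deriv c p.1) / ((c p.1).im : ℂ) ^ 2)) = 1 := by
    rw [← mul_div_assoc, Complex.mul_conj, Complex.normSq_eq_norm_sq, hunit]
    have : ((c p.1).im : ℂ) ≠ 0 := Complex.ofReal_ne_zero.2 (hpos p.1).ne'
    rw [Complex.ofReal_pow]
    field_simp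
  rw [h1]; simp

lemma cot_norm {c : ℝ → ℂ} (hpos : ∀ s, 0 < (c s).im) (hunit : ∀ s, ‖deriv c s‖ = (c s).im)
    (p : ℝ × ℝ) : (cot c p).1.im * ‖(cot c p).2‖ = |p.2| := by
  have h0 := hpos p.1
  simp only [cot, norm_div, norm_mul, norm_pow, Complex.norm_real, Real.norm_eq_abs,
    RCLike.norm_conj, hunit, abs_of_pos h0]
  field_simp

lemma cot_closed {c : ℝ → ℂ} (hc : ContDiff ℝ ((⊤ : ℕ∞) : WithTop ℕ∞) c)
    (hpos : ∀ s, 0 < (c s).im) {l : ℝ} {γ : SL2} (hcl : ∀ s, c (s + l) = mob γ (c s))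
    (p : ℝ × ℝ) : cot c (p + (l, 0)) = act γ (cot c p) := by
  have hd := den_ne γ (hpos p.1)
  have h1 : deriv c (p.1 + l) = deriv c p.1 / den γ (c p.1) ^ 2 := by
    have h2 : HasDerivAt (fun s => c (s + l)) (deriv c (p.1 + l)) p.1 :=
      ((hc.differentiable (by simp)) (p.1 + l)).hasDerivAt.comp_add_const p.1 l
    have h3 : HasDerivAt (fun s => mob γ (c s)) (1 / den γ (c p.1) ^ 2 * deriv c p.1) p.1 :=
      (mob_hasDerivAt γ (hpos p.1)).comp p.1 ((hc.differentiable (by simp)) p.1).hasDerivAt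
    rw [show (fun s => c (s + l)) = fun s => mob γ (c s) from funext hcl] at h2
    rw [h2.unique h3]
    field_simp
  have h4 : ((c (p.1 + l)).im : ℂ) = ((c p.1).im : ℂ) / (den γ (c p.1) * conj (den γ (c p.1))) := by
    rw [hcl, mob_im γ (hpos p.1), Complex.mul_conj]
    push_cast
    rfl
  have hcd : conj (den γ (c p.1)) ≠ 0 := by
    rw [ne_eq, map_eq_zero]; exact hd
  have him : ((c p.1).im : ℂ) ≠ 0 := Complex.ofReal_ne_zero.2 (hpos p.1).ne'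
  rw [act_def]
  simp only [cot, Prod.fst_add, Prod.snd_add, add_zero]
  refine Prod.ext ?_ ?_
  · exact hcl p.1
  · change (p.2 : ℂ) * conj (deriv c (p.1 + l)) / ((c (p.1 + l)).im : ℂ) ^ 2 =
      (p.2 : ℂ) * conj (deriv c p.1) / ((c p.1).im : ℂ) ^ 2 * den γ (c p.1) ^ 2
    rw [h1, h4, map_div₀, map_pow]
    field_simp

/-- **Bound on invariant cotangent annuli.** -/
theorem cot_bound {Γ : Subgroup SL2} {H : ℂ × ℂ → ℝ} {m l : ℝ} {c : ℝ → ℂ} {γ : SL2}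
    (hA : Admissible Γ H m) (hl : 0 < l) (hγ : γ ∈ Γ)
    (hc : ContDiff ℝ ((⊤ : ℕ∞) : WithTop ℕ∞) c) (hpos : ∀ s, 0 < (c s).im)
    (hunit : ∀ s, ‖deriv c s‖ = (c s).im) (hcl : ∀ s, c (s + l) = mob γ (c s))
    (htan : ∀ p : ℝ × ℝ, |p.2| < 1 → ∃ v : ℝ × ℝ, fderiv ℝ (cot c) p v = XH H (cot c p))
    (p : ℝ × ℝ) : m - H (cot c p) ≤ 2 * l := by
  have hI : InvAnnulus Γ H m l (-1) 1 (cot c) := by
    refine ⟨hl, cot_contDiff hc hpos, fun p => hpos p.1, fun p _ _ => cot_symp hc hpos hunit p,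
      fun p h1 h2 => htan p (abs_lt.2 ⟨h1, h2⟩), ⟨γ, hγ, cot_closed hc hpos hcl⟩, ?_⟩
    obtain ⟨r, hr1, hr⟩ := hA.outer
    set ρ : ℝ := max r 0 with hρ
    have hρ0 : 0 ≤ ρ := le_max_right _ _
    have hρ1 : ρ < 1 := max_lt hr1 one_pos
    have hρr : r ≤ ρ := le_max_left _ _
    refine ⟨-((1 + ρ) / 2), (1 + ρ) / 2, by linarith, by linarith, by linarith, fun q hq => ?_⟩
    apply hr _ (hpos q.1)
    rw [cot_norm hpos hunit]
    rcases hq with hq | hq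
    · have := neg_abs_le q.2
      linarith
    · have := le_abs_self q.2
      linarith
  have := hI.bound hA p
  linarith

/-- The differential of the action on the cotangent bundle. -/
noncomputable def dact (γ : SL2) (u : ℂ × ℂ) : ℂ × ℂ →L[ℝ] ℂ × ℂ :=
  (((1 / den γ u.1 ^ 2) • ContinuousLinearMap.fst ℂ ℂ ℂ).prod
    ((den γ u.1 ^ 2) • ContinuousLinearMap.snd ℂ ℂ ℂ +
      (2 * ((γ : Matrix (Fin 2) (Fin 2) ℝ) 1 0 : ℂ) * den γ u.1 * u.2) •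
        ContinuousLinearMap.fst ℂ ℂ ℂ)).restrictScalars ℝ

lemma act_hasFDerivAt (γ : SL2) {u : ℂ × ℂ} (hu : 0 < u.1.im) :
    HasFDerivAt (act γ) (dact γ u) u := by
  have h1 : HasFDerivAt (fun u : ℂ × ℂ => mob γ u.1)
      ((1 / den γ u.1 ^ 2) • ContinuousLinearMap.fst ℂ ℂ ℂ) u :=
    (mob_hasDerivAt γ hu).comp_hasFDerivAt u hasFDerivAt_fst
  have hdp : HasDerivAt (fun z => den γ z ^ 2)
      (2 * den γ u.1 * ((γ : Matrix (Fin 2) (Fin 2) ℝ) 1 0 : ℂ)) u.1 := by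
    have h := (den_hasDerivAt γ u.1).pow 2
    have e : (((2 : ℕ) : ℂ) * den γ u.1 ^ (2 - 1) *
        ((γ : Matrix (Fin 2) (Fin 2) ℝ) 1 0 : ℂ)) =
        2 * den γ u.1 * ((γ : Matrix (Fin 2) (Fin 2) ℝ) 1 0 : ℂ) := by
      norm_num
    rw [e] at h
    exact h
  have h2 : HasFDerivAt (fun u : ℂ × ℂ => den γ u.1 ^ 2)
      ((2 * den γ u.1 * ((γ : Matrix (Fin 2) (Fin 2) ℝ) 1 0 : ℂ)) •
        ContinuousLinearMap.fst ℂ ℂ ℂ) u :=
    hdp.comp_hasFDerivAt u hasFDerivAt_fst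
  have h3 : HasFDerivAt (fun u : ℂ × ℂ => u.2 * den γ u.1 ^ 2)
      ((den γ u.1 ^ 2) • ContinuousLinearMap.snd ℂ ℂ ℂ +
      (2 * ((γ : Matrix (Fin 2) (Fin 2) ℝ) 1 0 : ℂ) * den γ u.1 * u.2) •
        ContinuousLinearMap.fst ℂ ℂ ℂ) u := by
    have h4 := (hasFDerivAt_snd (𝕜 := ℂ) (E := ℂ) (F := ℂ) (p := u)).mul h2
    have e : u.2 • (2 * den γ u.1 * ((γ : Matrix (Fin 2) (Fin 2) ℝ) 1 0 : ℂ)) •
        ContinuousLinearMap.fst ℂ ℂ ℂ + den γ u.1 ^ 2 • ContinuousLinearMap.snd ℂ ℂ ℂ =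
        (den γ u.1 ^ 2) • ContinuousLinearMap.snd ℂ ℂ ℂ +
        (2 * ((γ : Matrix (Fin 2) (Fin 2) ℝ) 1 0 : ℂ) * den γ u.1 * u.2) •
          ContinuousLinearMap.fst ℂ ℂ ℂ := by
      rw [add_comm, smul_smul]
      congr 2
      ring
    rw [e] at h4
    exact h4
  have h5 := h1.prodMk h3
  have h6 : HasFDerivAt (act γ) (((1 / den γ u.1 ^ 2) • ContinuousLinearMap.fst ℂ ℂ ℂ).prod
    ((den γ u.1 ^ 2) • ContinuousLinearMap.snd ℂ ℂ ℂ +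
      (2 * ((γ : Matrix (Fin 2) (Fin 2) ℝ) 1 0 : ℂ) * den γ u.1 * u.2) •
        ContinuousLinearMap.fst ℂ ℂ ℂ)) u := h5
  exact h6.restrictScalars ℝ

lemma dact_apply (γ : SL2) (u v : ℂ × ℂ) : dact γ u v =
    (v.1 / den γ u.1 ^ 2, den γ u.1 ^ 2 * v.2 +
      2 * ((γ : Matrix (Fin 2) (Fin 2) ℝ) 1 0 : ℂ) * den γ u.1 * u.2 * v.1) := by
  refine Prod.ext ?_ ?_
  · simp [dact]; ring
  · simp [dact]

lemma om_dact (γ : SL2) {u : ℂ × ℂ} (hu : 0 < u.1.im) (v v' : ℂ × ℂ) :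
    om (dact γ u v) (dact γ u v') = om v v' := by
  have hd := den_ne γ hu
  rw [dact_apply, dact_apply]
  simp only [om]
  congr 1
  field_simp
  ring

lemma dact_surj (γ : SL2) {u : ℂ × ℂ} (hu : 0 < u.1.im) (v : ℂ × ℂ) :
    ∃ v', dact γ u v' = v := by
  have hd := den_ne γ hu
  refine ⟨(v.1 * den γ u.1 ^ 2, (v.2 - 2 * ((γ : Matrix (Fin 2) (Fin 2) ℝ) 1 0 : ℂ) *
    den γ u.1 * u.2 * (v.1 * den γ u.1 ^ 2)) / den γ u.1 ^ 2), ?_⟩
  rw [dact_apply]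
  refine Prod.ext ?_ ?_
  · simp only; field_simp
  · simp only; field_simp; ring

/-- Covariance of the Hamiltonian vector field. -/
lemma XH_act (γ : SL2) {H : ℂ × ℂ → ℝ} {u : ℂ × ℂ} (hu : 0 < u.1.im)
    (hH : DifferentiableAt ℝ H (act γ u)) :
    XH H (act γ u) = dact γ u (XH (fun u => H (act γ u)) u) := by
  rw [← sub_eq_zero]
  apply om_nondeg
  intro v
  obtain ⟨v', rfl⟩ := dact_surj γ hu v
  have h1 : om (XH H (act γ u) - dact γ u (XH (fun u => H (act γ u)) u)) (dact γ u v') =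
      om (XH H (act γ u)) (dact γ u v') -
        om (dact γ u (XH (fun u => H (act γ u)) u)) (dact γ u v') := by
    simp only [om, Prod.fst_sub, Prod.snd_sub, Complex.sub_re, Complex.mul_re, Complex.sub_im]
    ring
  rw [h1, om_dact γ hu, om_XH, om_XH]
  have h2 : HasFDerivAt (fun u => H (act γ u)) ((fderiv ℝ H (act γ u)).comp (dact γ u)) u :=
    hH.hasFDerivAt.comp u (act_hasFDerivAt γ hu)
  rw [h2.fderiv]
  simp

end Pool.Agent.HZAnn
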