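import Mathlib
import Pool.Agent.HZAnn.Curve

/-!
# Reflections
-/

open Set Filter Metric MeasureTheory
open scoped NNReal ENNReal Topology ComplexConjugate

namespace Pool.Agent.HZAnn

/-- The lift to `T*ℍ` of the reflection `z ↦ -conj z` of the hyperbolic plane in the imaginary
half axis. -/
noncomputable def mir (u : ℂ × ℂ) : ℂ × ℂ := (-conj u.1, -conj u.2)

/-- The unit speed geodesic `s ↦ g (i e^s)`. -/
noncomputable def geo (g : SL2) (s : ℝ) : ℂ := mob g (Complex.I * (Real.exp s : ℂ))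

/-- The cotangent annulus of the imaginary half axis. -/
noncomputable def axis (p : ℝ × ℝ) : ℂ × ℂ :=
  (Complex.I * (Real.exp p.1 : ℂ), -Complex.I * ((p.2 * Real.exp (-p.1) : ℝ) : ℂ))

lemma I_exp_im (s : ℝ) : (Complex.I * (Real.exp s : ℂ)).im = Real.exp s := by
  simp [Complex.mul_im, Complex.exp_ofReal_re]

lemma axis_im (p : ℝ × ℝ) : (axis p).1.im = Real.exp p.1 := I_exp_im p.1

lemma axis_pos (p : ℝ × ℝ) : 0 < (axis p).1.im := by
  rw [axis_im]; exact Real.exp_pos _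

lemma Iexp_hasDerivAt (s : ℝ) : HasDerivAt (fun s : ℝ => Complex.I * (Real.exp s : ℂ))
    (Complex.I * (Real.exp s : ℂ)) s :=
  ((Real.hasDerivAt_exp s).ofReal_comp).const_mul Complex.I

lemma geo_hasDerivAt (g : SL2) (s : ℝ) : HasDerivAt (geo g)
    (Complex.I * (Real.exp s : ℂ) / den g (Complex.I * (Real.exp s : ℂ)) ^ 2) s := by
  have hpos : 0 < (Complex.I * (Real.exp s : ℂ)).im := by
    rw [I_exp_im]; exact Real.exp_pos _
  have h := (mob_hasDerivAt g hpos).comp s (Iexp_hasDerivAt s)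
  have e : 1 / den g (Complex.I * (Real.exp s : ℂ)) ^ 2 * (Complex.I * (Real.exp s : ℂ)) =
      Complex.I * (Real.exp s : ℂ) / den g (Complex.I * (Real.exp s : ℂ)) ^ 2 := by
    ring
  rw [e] at h
  exact h

lemma geo_pos (g : SL2) (s : ℝ) : 0 < (geo g s).im := by
  apply mob_im_pos
  rw [I_exp_im]; exact Real.exp_pos _

lemma geo_contDiff (g : SL2) : ContDiff ℝ ((⊤ : ℕ∞) : WithTop ℕ∞) (geo g) := by
  have h1 : ContDiff ℝ ((⊤ : ℕ∞) : WithTop ℕ∞) fun s : ℝ => Complex.I * (Real.exp s : ℂ) :=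
    contDiff_const.mul (Complex.ofRealCLM.contDiff.comp Real.contDiff_exp)
  have h2 := ((contDiff_const (c := ((g : Matrix (Fin 2) (Fin 2) ℝ) 0 0 : ℂ))).mul h1).add
    (contDiff_const (c := ((g : Matrix (Fin 2) (Fin 2) ℝ) 0 1 : ℂ)))
  have h3 := ((contDiff_const (c := ((g : Matrix (Fin 2) (Fin 2) ℝ) 1 0 : ℂ))).mul h1).add
    (contDiff_const (c := ((g : Matrix (Fin 2) (Fin 2) ℝ) 1 1 : ℂ)))
  have h4 := h2.mul (h3.inv fun s => den_ne g (by rw [I_exp_im]; exact Real.exp_pos _))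
  have e : geo g = fun s : ℝ => (((g : Matrix (Fin 2) (Fin 2) ℝ) 0 0 : ℂ) *
      (Complex.I * (Real.exp s : ℂ)) + ((g : Matrix (Fin 2) (Fin 2) ℝ) 0 1 : ℂ)) *
      (((g : Matrix (Fin 2) (Fin 2) ℝ) 1 0 : ℂ) * (Complex.I * (Real.exp s : ℂ)) +
        ((g : Matrix (Fin 2) (Fin 2) ℝ) 1 1 : ℂ))⁻¹ := by
    funext s
    simp only [geo, mob, div_eq_mul_inv]
  rw [e]
  exact h4

lemma geo_unit (g : SL2) (s : ℝ) : ‖deriv (geo g) s‖ = (geo g s).im := by
  have hpos : 0 < (Complex.I * (Real.exp s : ℂ)).im := by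
    rw [I_exp_im]; exact Real.exp_pos _
  rw [(geo_hasDerivAt g s).deriv, geo, mob_im g hpos, I_exp_im, norm_div, norm_mul,
    Complex.norm_I, one_mul, Complex.norm_real, Real.norm_eq_abs, abs_of_pos (Real.exp_pos s),
    norm_pow, Complex.normSq_eq_norm_sq]

lemma cot_geo (g : SL2) (p : ℝ × ℝ) : cot (geo g) p = act g (axis p) := by
  have hpos : 0 < (Complex.I * (Real.exp p.1 : ℂ)).im := by
    rw [I_exp_im]; exact Real.exp_pos _
  have hd := den_ne g hpos
  have hcd : conj (den g (Complex.I * (Real.exp p.1 : ℂ))) ≠ 0 := by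
    rw [ne_eq, map_eq_zero]; exact hd
  have he : (Real.exp p.1 : ℂ) ≠ 0 := Complex.ofReal_ne_zero.2 (Real.exp_pos _).ne'
  rw [act_def]
  refine Prod.ext rfl ?_
  change (p.2 : ℂ) * conj (deriv (geo g) p.1) / ((geo g p.1).im : ℂ) ^ 2 =
    -Complex.I * ((p.2 * Real.exp (-p.1) : ℝ) : ℂ) * den g (Complex.I * (Real.exp p.1 : ℂ)) ^ 2
  have h4 : ((geo g p.1).im : ℂ) = (Real.exp p.1 : ℂ) /
      (den g (Complex.I * (Real.exp p.1 : ℂ)) * conj (den g (Complex.I * (Real.exp p.1 : ℂ)))) := by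
    rw [geo, mob_im g hpos, Complex.mul_conj, I_exp_im]
    push_cast
    rfl
  rw [(geo_hasDerivAt g p.1).deriv, h4, Real.exp_neg]
  simp only [map_div₀, map_mul, map_pow, Complex.conj_I, Complex.conj_ofReal,
    Complex.ofReal_mul, Complex.ofReal_inv]
  field_simp

/-- the differential of `mir` -/
noncomputable def mirL : ℂ × ℂ →L[ℝ] ℂ × ℂ :=
  ((-(Complex.conjCLE : ℂ →L[ℝ] ℂ)).comp (ContinuousLinearMap.fst ℝ ℂ ℂ)).prod
    ((-(Complex.conjCLE : ℂ →L[ℝ] ℂ)).comp (ContinuousLinearMap.snd ℝ ℂ ℂ))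

lemma mirL_apply (u : ℂ × ℂ) : mirL u = mir u := by
  simp [mirL, mir]

lemma mir_axis (p : ℝ × ℝ) : mir (axis p) = axis p := by
  refine Prod.ext ?_ ?_
  · simp [mir, axis, ← Complex.exp_conj]
  · simp [mir, axis, ← Complex.exp_conj]

lemma axis_hasFDerivAt (p : ℝ × ℝ) (v : ℝ × ℝ) : fderiv ℝ axis p v =
    (Complex.I * ((Real.exp p.1 * v.1 : ℝ) : ℂ),
      Complex.I * ((p.2 * Real.exp (-p.1) * v.1 - Real.exp (-p.1) * v.2 : ℝ) : ℂ)) := by
  have h1 : HasFDerivAt (fun p : ℝ × ℝ => Real.exp p.1)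
      (Real.exp p.1 • ContinuousLinearMap.fst ℝ ℝ ℝ) p :=
    (Real.hasDerivAt_exp p.1).comp_hasFDerivAt p hasFDerivAt_fst
  have h2 : HasFDerivAt (fun p : ℝ × ℝ => Real.exp (-p.1))
      (-(Real.exp (-p.1)) • ContinuousLinearMap.fst ℝ ℝ ℝ) p := by
    have h := (Real.hasDerivAt_exp (-p.1)).comp_hasFDerivAt p
      (hasFDerivAt_fst (𝕜 := ℝ) (E := ℝ) (F := ℝ) (p := p)).neg
    have e : Real.exp (-p.1) • (-ContinuousLinearMap.fst ℝ ℝ ℝ) =
        -(Real.exp (-p.1)) • ContinuousLinearMap.fst ℝ ℝ ℝ := by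
      ext <;> simp
    rw [e] at h
    exact h
  have h3 := (hasFDerivAt_snd (𝕜 := ℝ) (E := ℝ) (F := ℝ) (p := p)).mul h2
  have h4 : HasFDerivAt (fun p : ℝ × ℝ => Complex.I * (Real.exp p.1 : ℂ))
      ((Complex.I • Complex.ofRealCLM).comp (Real.exp p.1 • ContinuousLinearMap.fst ℝ ℝ ℝ)) p :=
    (Complex.I • Complex.ofRealCLM).hasFDerivAt.comp p h1
  have h5 := ((-Complex.I) • Complex.ofRealCLM).hasFDerivAt.comp p h3
  have h6 := h4.prodMk h5
  have h7 : HasFDerivAt axis _ p := h6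
  rw [h7.fderiv]
  refine Prod.ext ?_ ?_
  · simp
    ring
  · simp
    ring

/-- The Hamiltonian field of a reflection-invariant function is tangent to the cotangent annulus
of the axis. -/
lemma XH_mir {K : ℂ × ℂ → ℝ} (p : ℝ × ℝ) (hK : DifferentiableAt ℝ K (axis p))
    (hinv : ∀ u : ℂ × ℂ, 0 < u.1.im → K (mir u) = K u) :
    ∃ v : ℝ × ℝ, fderiv ℝ axis p v = XH K (axis p) := by
  have hfix : ∀ v, fderiv ℝ K (axis p) (mir v) = fderiv ℝ K (axis p) v := by
    intro v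
    have h1 : HasFDerivAt (fun u => K (mirL u)) ((fderiv ℝ K (axis p)).comp mirL) (axis p) := by
      have h2 : HasFDerivAt K (fderiv ℝ K (axis p)) (mirL (axis p)) := by
        rw [mirL_apply, mir_axis]; exact hK.hasFDerivAt
      exact h2.comp (axis p) mirL.hasFDerivAt
    have h3 : (fun u => K (mirL u)) =ᶠ[𝓝 (axis p)] K := by
      filter_upwards [isOpen_uhp.mem_nhds (axis_pos p)] with u hu
      rw [mirL_apply]; exact hinv u hu
    have h4 := (h1.congr_of_eventuallyEq h3.symm).unique hK.hasFDerivAt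
    have h5 := DFunLike.congr_fun h4 v
    rw [ContinuousLinearMap.comp_apply, mirL_apply] at h5
    exact h5
  have h1 : fderiv ℝ K (axis p) ((1 : ℂ), (0 : ℂ)) = 0 := by
    have h := hfix ((1 : ℂ), (0 : ℂ))
    have e : mir ((1 : ℂ), (0 : ℂ)) = -((1 : ℂ), (0 : ℂ)) := by simp [mir]
    rw [e, map_neg] at h
    linarith
  have h2 : fderiv ℝ K (axis p) ((0 : ℂ), (1 : ℂ)) = 0 := by
    have h := hfix ((0 : ℂ), (1 : ℂ))
    have e : mir ((0 : ℂ), (1 : ℂ)) = -((0 : ℂ), (1 : ℂ)) := by simp [mir]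
    rw [e, map_neg] at h
    linarith
  set α := fderiv ℝ K (axis p) ((0 : ℂ), -Complex.I) with hα
  set β := fderiv ℝ K (axis p) (Complex.I, (0 : ℂ)) with hβ
  refine ⟨(α * Real.exp (-p.1), p.2 * (α * Real.exp (-p.1)) - β * Real.exp p.1), ?_⟩
  rw [axis_hasFDerivAt]
  have he : Real.exp p.1 * Real.exp (-p.1) = 1 := by rw [← Real.exp_add]; simp
  refine Prod.ext ?_ ?_
  · change Complex.I * ((Real.exp p.1 * (α * Real.exp (-p.1)) : ℝ) : ℂ) =
      ((fderiv ℝ K (axis p) ((0 : ℂ), (1 : ℂ)) : ℝ) : ℂ) + Complex.I * (α : ℂ)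
    rw [h2]
    have : Real.exp p.1 * (α * Real.exp (-p.1)) = α := by linear_combination α * he
    rw [this]; simp
  · change Complex.I * ((p.2 * Real.exp (-p.1) * (α * Real.exp (-p.1)) -
      Real.exp (-p.1) * (p.2 * (α * Real.exp (-p.1)) - β * Real.exp p.1) : ℝ) : ℂ) =
      -((fderiv ℝ K (axis p) ((1 : ℂ), (0 : ℂ)) : ℝ) : ℂ) + Complex.I * (β : ℂ)
    rw [h1]
    have : p.2 * Real.exp (-p.1) * (α * Real.exp (-p.1)) -
      Real.exp (-p.1) * (p.2 * (α * Real.exp (-p.1)) - β * Real.exp p.1) = β := by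
      linear_combination β * he
    rw [this]; simp

/-- The Hamiltonian vector field of an admissible `H` which is invariant under the reflection in
the geodesic `s ↦ g (i e^s)` is tangent to the cotangent annulus of this geodesic. -/
theorem refl_tangent {Γ : Subgroup SL2} {H : ℂ × ℂ → ℝ} {m : ℝ} {g : SL2}
    (hA : Admissible Γ H m)
    (hinv : ∀ u : ℂ × ℂ, 0 < u.1.im → H (act g (mir u)) = H (act g u)) (q : ℝ × ℝ) :
    ∃ v : ℝ × ℝ, fderiv ℝ (cot (geo g)) q v = XH H (cot (geo g) q) := by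
  have hHq : DifferentiableAt ℝ H (act g (axis q)) :=
    (hA.smooth.contDiffAt (isOpen_uhp.mem_nhds (act_im_pos g (axis_pos q)))).differentiableAt
      (by simp)
  have hK : DifferentiableAt ℝ (fun u => H (act g u)) (axis q) :=
    (hHq.hasFDerivAt.comp (axis q) (act_hasFDerivAt g (axis_pos q))).differentiableAt
  obtain ⟨v, hv⟩ := XH_mir q hK hinv
  refine ⟨v, ?_⟩
  rw [cot_geo, XH_act g (axis_pos q) hHq, ← hv]
  have hax : DifferentiableAt ℝ axis q := by
    by_contra hcon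
    have h0 := fderiv_zero_of_not_differentiableAt hcon
    have h1 := axis_hasFDerivAt q (1, 0)
    rw [h0] at h1
    have h2 := congrArg (fun u : ℂ × ℂ => u.1.im) h1
    simp at h2
    exact (Real.exp_pos _).ne' h2.symm
  have h3 : HasFDerivAt (fun q => act g (axis q)) ((dact g (axis q)).comp (fderiv ℝ axis q)) q :=
    (act_hasFDerivAt g (axis_pos q)).comp q hax.hasFDerivAt
  have h4 : cot (geo g) = fun q => act g (axis q) := funext (cot_geo g)
  rw [h4, h3.fderiv]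
  rfl

/-- A closed curve on `Γ \ ℍ` of length `l`, parametrised by arc length: a smooth curve `c` in
the hyperbolic plane with `‖c'(s)‖ / Im c(s) = 1` and `c(s + l) = γ c(s)` for some `γ ∈ Γ`. -/
structure ClosedCurve (Γ : Subgroup SL2) (c : ℝ → ℂ) (l : ℝ) : Prop where
  pos_l : 0 < l
  smooth : ContDiff ℝ ((⊤ : ℕ∞) : WithTop ℕ∞) c
  pos : ∀ s, 0 < (c s).im
  unit : ∀ s, ‖deriv c s‖ = (c s).im
  closed : ∃ γ ∈ Γ, ∀ s, c (s + l) = mob γ (c s)

/-- The Hamiltonian vector field of `H` is tangent to the cotangent annulus `T*c`. -/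
def TangentTo (H : ℂ × ℂ → ℝ) (c : ℝ → ℂ) : Prop :=
  ∀ p : ℝ × ℝ, |p.2| < 1 → ∃ v : ℝ × ℝ, fderiv ℝ (cot c) p v = XH H (cot c p)

/-- `c` is a geodesic `s ↦ g (i e^s)` and `H` is invariant under the reflection in `c`. -/
def ReflectionInvariant (H : ℂ × ℂ → ℝ) (c : ℝ → ℂ) : Prop :=
  ∃ g : SL2, (∀ s, c s = mob g (Complex.I * (Real.exp s : ℂ))) ∧
    ∀ u : ℂ × ℂ, 0 < u.1.im → H (act g (-conj u.1, -conj u.2)) = H (act g u)

/-- **Area bound for Hamiltonians preserving the cotangent annulus of a closed curve.** -/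
theorem annulus_bound {Γ : Subgroup SL2} {H : ℂ × ℂ → ℝ} {m : ℝ} (hA : Admissible Γ H m)
    {c : ℝ → ℂ} {l : ℝ} (hc : ClosedCurve Γ c l)
    (hH : TangentTo H c ∨ ReflectionInvariant H c) (p : ℝ × ℝ) : m - H (cot c p) ≤ 2 * l := by
  obtain ⟨γ, hγ, hcl⟩ := hc.closed
  refine cot_bound hA hc.pos_l hγ hc.smooth hc.pos hc.unit hcl ?_ p
  rcases hH with hH | ⟨g, hg, hinv⟩
  · exact hH
  · have h1 : c = geo g := funext hg
    rw [h1]
    intro q _
    exact refl_tangent hA hinv q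

end Pool.Agent.HZAnn
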